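import Pool.Agent.Q204.TY.Box

set_option autoImplicit false

/-!
# The basis of rational balls
-/

namespace Q204.TY

/-- The rational point of the cube with numerators `c.1` (bounded by the denominator) and
denominator `c.2 + 1`; its coordinates are eventually `0`. -/
noncomputable def ctr (c : List ℕ × ℕ) : Cube := fun n =>
  ⟨((min (c.1.getD n 0) (c.2 + 1) : ℕ) : ℝ) / (c.2 + 1), by positivity, by
    rw [div_le_one (by positivity)]
    have h : min (c.1.getD n 0) (c.2 + 1) ≤ c.2 + 1 := min_le_right _ _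
    exact_mod_cast h⟩

/-- The positive rational number `(r.1 + 1) / (r.2 + 1)`. -/
noncomputable def rad (r : ℕ × ℕ) : ℝ := ((r.1 : ℝ) + 1) / (r.2 + 1)

/-- Codes of rational open balls. -/
abbrev Bl : Type := (List ℕ × ℕ) × (ℕ × ℕ)

/-- The rational open ball with a given code. -/
def rball (b : Bl) : Set Cube := {x | dQ (ctr b.1) x < rad b.2}

/-- Scaled distance of coordinates. -/
def tt (c : (List ℕ × ℕ) × (List ℕ × ℕ)) (n : ℕ) : ℕ :=
  (min (c.1.1.getD n 0) (c.1.2 + 1) * (c.2.2 + 1) - min (c.2.1.getD n 0) (c.2.2 + 1) * (c.1.2 + 1)) +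
  (min (c.2.1.getD n 0) (c.2.2 + 1) * (c.1.2 + 1) - min (c.1.1.getD n 0) (c.1.2 + 1) * (c.2.2 + 1))

/-- Scaled partial sums. -/
def hs (c : (List ℕ × ℕ) × (List ℕ × ℕ)) : ℕ → ℕ
  | 0 => 0
  | n + 1 => 2 * (hs c n + tt c n)

/-- The number of relevant coordinates. -/
def NN (c : (List ℕ × ℕ) × (List ℕ × ℕ)) : ℕ := c.1.1.length + c.2.1.length

/-- The scale. -/
def WW (c : (List ℕ × ℕ) × (List ℕ × ℕ)) : ℕ := 2 ^ NN c * ((c.1.2 + 1) * (c.2.2 + 1))

theorem cast_tt (c : (List ℕ × ℕ) × (List ℕ × ℕ)) (n : ℕ) :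
    |(ctr c.1 n : ℝ) - ctr c.2 n| = tt c n / ((c.1.2 + 1) * (c.2.2 + 1)) := by
  have h1 : (ctr c.1 n : ℝ) = ((min (c.1.1.getD n 0) (c.1.2 + 1) : ℕ) : ℝ) / (c.1.2 + 1) := rfl
  have h2 : (ctr c.2 n : ℝ) = ((min (c.2.1.getD n 0) (c.2.2 + 1) : ℕ) : ℝ) / (c.2.2 + 1) := rfl
  rw [h1, h2]
  set a := min (c.1.1.getD n 0) (c.1.2 + 1) with ha
  set b := min (c.2.1.getD n 0) (c.2.2 + 1) with hb
  have h3 : (tt c n : ℝ) = |(a : ℝ) * (c.2.2 + 1) - b * (c.1.2 + 1)| := by
    unfold tt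
    rw [← ha, ← hb]
    rcases le_total (a * (c.2.2 + 1)) (b * (c.1.2 + 1)) with h | h
    · rw [Nat.sub_eq_zero_of_le h, zero_add, Nat.cast_sub h]
      have h' : (a : ℝ) * (c.2.2 + 1) ≤ b * (c.1.2 + 1) := by exact_mod_cast h
      rw [abs_of_nonpos (by linarith)]
      push_cast
      ring
    · rw [Nat.sub_eq_zero_of_le h, add_zero, Nat.cast_sub h]
      have h' : (b : ℝ) * (c.1.2 + 1) ≤ a * (c.2.2 + 1) := by exact_mod_cast h
      rw [abs_of_nonneg (by linarith)]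
      push_cast
      ring
  rw [h3]
  have h4 : (0 : ℝ) < (c.1.2 + 1) * (c.2.2 + 1) := by positivity
  rw [eq_div_iff h4.ne', ← abs_of_pos h4, ← abs_mul]
  congr 1
  field_simp

theorem cast_hs (c : (List ℕ × ℕ) × (List ℕ × ℕ)) (n : ℕ) :
    (hs c n : ℝ) = 2 ^ n * ∑ i ∈ Finset.range n, (1 / 2 : ℝ) ^ i * tt c i := by
  induction n with
  | zero => simp [hs]
  | succ n ih =>
    rw [Finset.sum_range_succ]
    show ((2 * (hs c n + tt c n) : ℕ) : ℝ) = _
    push_cast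
    rw [ih]
    have h : (2 : ℝ) ^ n * (1 / 2) ^ n = 1 := by
      rw [← mul_pow]
      norm_num
    calc (2 : ℝ) * (2 ^ n * ∑ i ∈ Finset.range n, (1 / 2 : ℝ) ^ i * tt c i + tt c n)
        = 2 * (2 ^ n * ∑ i ∈ Finset.range n, (1 / 2 : ℝ) ^ i * tt c i +
          (2 ^ n * (1 / 2) ^ n) * tt c n) := by rw [h, one_mul]
      _ = _ := by ring

theorem dQ_ctr (c : (List ℕ × ℕ) × (List ℕ × ℕ)) :
    dQ (ctr c.1) (ctr c.2) = hs c (NN c) / WW c := by
  have h1 : dQ (ctr c.1) (ctr c.2) =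
      ∑ i ∈ Finset.range (NN c), (1 / 2 : ℝ) ^ i * |(ctr c.1 i : ℝ) - ctr c.2 i| := by
    unfold dQ
    refine tsum_eq_sum fun n hn => ?_
    rw [Finset.mem_range, not_lt] at hn
    unfold NN at hn
    rw [cast_tt]
    have e1 : c.1.1.getD n 0 = 0 := List.getD_eq_default _ _ (by omega)
    have e2 : c.2.1.getD n 0 = 0 := List.getD_eq_default _ _ (by omega)
    have : tt c n = 0 := by
      unfold tt
      rw [e1, e2]
      simp
    rw [this]
    simp
  rw [h1, cast_hs]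
  unfold WW
  push_cast
  rw [mul_div_mul_left _ _ (by positivity), Finset.sum_div]
  refine Finset.sum_congr rfl fun i _ => ?_
  rw [cast_tt]
  ring

/-- Formal disjointness. -/
def RDis (b b' : Bl) : Prop :=
  ((b.2.1 + 1) * (b'.2.2 + 1) + (b'.2.1 + 1) * (b.2.2 + 1)) * WW (b.1, b'.1) ≤
    hs (b.1, b'.1) (NN (b.1, b'.1)) * ((b.2.2 + 1) * (b'.2.2 + 1))

/-- Formal inclusion. -/
def RInc (b b' : Bl) : Prop :=
  hs (b.1, b'.1) (NN (b.1, b'.1)) * ((b.2.2 + 1) * (b'.2.2 + 1)) +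
    (b.2.1 + 1) * (b'.2.2 + 1) * WW (b.1, b'.1) ≤ (b'.2.1 + 1) * (b.2.2 + 1) * WW (b.1, b'.1)

theorem WW_pos (c : (List ℕ × ℕ) × (List ℕ × ℕ)) : 0 < WW c := by
  unfold WW
  positivity

theorem RDis_iff (b b' : Bl) : RDis b b' ↔ rad b.2 + rad b'.2 ≤ dQ (ctr b.1) (ctr b'.1) := by
  have h := dQ_ctr (b.1, b'.1)
  simp only at h
  rw [h]
  unfold rad
  have hW : (0 : ℝ) < WW (b.1, b'.1) := by exact_mod_cast WW_pos _
  rw [div_add_div _ _ (by positivity) (by positivity), div_le_div_iff₀ (by positivity) hW]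
  unfold RDis
  have h1 : (((b.2.1 + 1) * (b'.2.2 + 1) + (b'.2.1 + 1) * (b.2.2 + 1)) * WW (b.1, b'.1) ≤
      hs (b.1, b'.1) (NN (b.1, b'.1)) * ((b.2.2 + 1) * (b'.2.2 + 1))) ↔
      ((((b.2.1 + 1) * (b'.2.2 + 1) + (b'.2.1 + 1) * (b.2.2 + 1)) * WW (b.1, b'.1) : ℕ) : ℝ) ≤
      ((hs (b.1, b'.1) (NN (b.1, b'.1)) * ((b.2.2 + 1) * (b'.2.2 + 1)) : ℕ) : ℝ) := by
    rw [Nat.cast_le]
  rw [h1]
  push_cast
  constructor <;> intro h <;> linarith

theorem RInc_iff (b b' : Bl) : RInc b b' ↔ dQ (ctr b.1) (ctr b'.1) + rad b.2 ≤ rad b'.2 := by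
  have h := dQ_ctr (b.1, b'.1)
  simp only at h
  rw [h]
  unfold rad
  have hW : (0 : ℝ) < WW (b.1, b'.1) := by exact_mod_cast WW_pos _
  rw [div_add_div _ _ hW.ne' (by positivity), div_le_div_iff₀ (by positivity) (by positivity)]
  unfold RInc
  have h1 : (hs (b.1, b'.1) (NN (b.1, b'.1)) * ((b.2.2 + 1) * (b'.2.2 + 1)) +
    (b.2.1 + 1) * (b'.2.2 + 1) * WW (b.1, b'.1) ≤ (b'.2.1 + 1) * (b.2.2 + 1) * WW (b.1, b'.1)) ↔
      ((hs (b.1, b'.1) (NN (b.1, b'.1)) * ((b.2.2 + 1) * (b'.2.2 + 1)) +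
    (b.2.1 + 1) * (b'.2.2 + 1) * WW (b.1, b'.1) : ℕ) : ℝ) ≤
      (((b'.2.1 + 1) * (b.2.2 + 1) * WW (b.1, b'.1) : ℕ) : ℝ) := by
    rw [Nat.cast_le]
  rw [h1]
  push_cast
  constructor <;> intro h <;> linarith

theorem primrec_tt : Primrec₂ tt := by
  have n : Primrec (fun p : ((List ℕ × ℕ) × (List ℕ × ℕ)) × ℕ => p.2) := Primrec.snd
  have c1 : Primrec (fun p : ((List ℕ × ℕ) × (List ℕ × ℕ)) × ℕ => p.1.1) :=
    Primrec.fst.comp Primrec.fst
  have c2 : Primrec (fun p : ((List ℕ × ℕ) × (List ℕ × ℕ)) × ℕ => p.1.2) :=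
    Primrec.snd.comp Primrec.fst
  have d1 := Primrec.succ.comp (Primrec.snd.comp c1)
  have d2 := Primrec.succ.comp (Primrec.snd.comp c2)
  have m1 := Primrec.nat_min.comp ((Primrec.list_getD 0).comp (Primrec.fst.comp c1) n) d1
  have m2 := Primrec.nat_min.comp ((Primrec.list_getD 0).comp (Primrec.fst.comp c2) n) d2
  have u := Primrec.nat_mul.comp m1 d2
  have v := Primrec.nat_mul.comp m2 d1
  exact Primrec.nat_add.comp (Primrec.nat_sub.comp u v) (Primrec.nat_sub.comp v u)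

theorem primrec_NN : Primrec NN :=
  Primrec.nat_add.comp (Primrec.list_length.comp (Primrec.fst.comp Primrec.fst))
    (Primrec.list_length.comp (Primrec.fst.comp Primrec.snd))

theorem primrec_WW : Primrec WW :=
  Primrec.nat_mul.comp (primrec_pow.comp (Primrec.const 2) primrec_NN)
    (Primrec.nat_mul.comp (Primrec.succ.comp (Primrec.snd.comp Primrec.fst))
      (Primrec.succ.comp (Primrec.snd.comp Primrec.snd)))

theorem primrec_hs : Primrec (fun c => hs c (NN c)) := by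
  have h : Primrec₂ (fun (c : (List ℕ × ℕ) × (List ℕ × ℕ)) (p : ℕ × ℕ) =>
      2 * (p.2 + tt c p.1)) :=
    Primrec.nat_mul.comp (Primrec.const 2) (Primrec.nat_add.comp (Primrec.snd.comp Primrec.snd)
      (primrec_tt.comp Primrec.fst (Primrec.fst.comp Primrec.snd)))
  refine (Primrec.nat_rec' primrec_NN (Primrec.const 0) h).of_eq fun c => ?_
  generalize NN c = n
  induction n with
  | zero => rfl
  | succ n ih =>
    show 2 * (_ + tt c n) = 2 * (hs c n + tt c n)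
    rw [← ih]

theorem primrec_RDis : PrimrecRel RDis := by
  have cc : Primrec (fun p : Bl × Bl => (p.1.1, p.2.1)) :=
    Primrec.pair (Primrec.fst.comp Primrec.fst) (Primrec.fst.comp Primrec.snd)
  have H := primrec_hs.comp cc
  have W := primrec_WW.comp cc
  have p1 : Primrec (fun p : Bl × Bl => p.1.2.1 + 1) :=
    Primrec.succ.comp (Primrec.fst.comp (Primrec.snd.comp Primrec.fst))
  have q1 : Primrec (fun p : Bl × Bl => p.1.2.2 + 1) :=
    Primrec.succ.comp (Primrec.snd.comp (Primrec.snd.comp Primrec.fst))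
  have p2 : Primrec (fun p : Bl × Bl => p.2.2.1 + 1) :=
    Primrec.succ.comp (Primrec.fst.comp (Primrec.snd.comp Primrec.snd))
  have q2 : Primrec (fun p : Bl × Bl => p.2.2.2 + 1) :=
    Primrec.succ.comp (Primrec.snd.comp (Primrec.snd.comp Primrec.snd))
  have h := Primrec.nat_le.comp
    (Primrec.nat_mul.comp (Primrec.nat_add.comp (Primrec.nat_mul.comp p1 q2)
      (Primrec.nat_mul.comp p2 q1)) W)
    (Primrec.nat_mul.comp H (Primrec.nat_mul.comp q1 q2))
  exact h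

theorem primrec_RInc : PrimrecRel RInc := by
  have cc : Primrec (fun p : Bl × Bl => (p.1.1, p.2.1)) :=
    Primrec.pair (Primrec.fst.comp Primrec.fst) (Primrec.fst.comp Primrec.snd)
  have H := primrec_hs.comp cc
  have W := primrec_WW.comp cc
  have p1 : Primrec (fun p : Bl × Bl => p.1.2.1 + 1) :=
    Primrec.succ.comp (Primrec.fst.comp (Primrec.snd.comp Primrec.fst))
  have q1 : Primrec (fun p : Bl × Bl => p.1.2.2 + 1) :=
    Primrec.succ.comp (Primrec.snd.comp (Primrec.snd.comp Primrec.fst))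
  have p2 : Primrec (fun p : Bl × Bl => p.2.2.1 + 1) :=
    Primrec.succ.comp (Primrec.fst.comp (Primrec.snd.comp Primrec.snd))
  have q2 : Primrec (fun p : Bl × Bl => p.2.2.2 + 1) :=
    Primrec.succ.comp (Primrec.snd.comp (Primrec.snd.comp Primrec.snd))
  have h := Primrec.nat_le.comp
    (Primrec.nat_add.comp (Primrec.nat_mul.comp H (Primrec.nat_mul.comp q1 q2))
      (Primrec.nat_mul.comp (Primrec.nat_mul.comp p1 q2) W))
    (Primrec.nat_mul.comp (Primrec.nat_mul.comp p2 q1) W)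
  exact h

theorem rball_inc {b b' : Bl} (h : RInc b b') : rball b ⊆ rball b' := by
  rw [RInc_iff] at h
  intro x hx
  have h1 : dQ (ctr b.1) x < rad b.2 := hx
  have h2 := dQ_triangle (ctr b'.1) (ctr b.1) x
  rw [dQ_comm (ctr b'.1) (ctr b.1)] at h2
  show dQ (ctr b'.1) x < rad b'.2
  linarith

theorem rball_dis {b b' : Bl} (h : RDis b b') : Disjoint (rball b) (rball b') := by
  rw [RDis_iff] at h
  rw [Set.disjoint_left]
  intro x hx hx'
  have h1 : dQ (ctr b.1) x < rad b.2 := hx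
  have h2 : dQ (ctr b'.1) x < rad b'.2 := hx'
  have h3 := dQ_triangle (ctr b.1) x (ctr b'.1)
  rw [dQ_comm x] at h3
  linarith

/-- Smallness. -/
def RSm (ε : ℝ) (b : Bl) : Prop := rad b.2 < ε / 4

theorem rball_close {ε : ℝ} {b b' : Bl} (hb : RSm ε b) (hb' : RSm ε b') (h : ¬ RDis b b')
    {x y : Cube} (hx : x ∈ rball b) (hy : y ∈ rball b') : dQ x y < ε := by
  rw [RDis_iff, not_le] at h
  have h1 : dQ (ctr b.1) x < rad b.2 := hx
  have h2 : dQ (ctr b'.1) y < rad b'.2 := hy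
  unfold RSm at hb hb'
  have h3 := dQ_triangle x (ctr b.1) y
  have h4 := dQ_triangle (ctr b.1) (ctr b'.1) y
  rw [dQ_comm x (ctr b.1)] at h3
  linarith

theorem rball_exists {ε : ℝ} (hε : 0 < ε) (x : Cube) : ∃ b, x ∈ rball b ∧ RSm ε b := by
  obtain ⟨m, hm⟩ := exists_nat_one_div_lt (show 0 < ε / 4 by positivity)
  set r : ℝ := 1 / ((m : ℝ) + 1) with hr
  have hrpos : 0 < r := by positivity
  obtain ⟨N, hN⟩ := exists_pow_lt_of_lt_one (show (0 : ℝ) < r / 4 by positivity)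
    (show (1 / 2 : ℝ) < 1 by norm_num)
  obtain ⟨d, hd⟩ := exists_nat_one_div_lt (show 0 < r / 4 by positivity)
  set c : List ℕ := List.ofFn (fun i : Fin N => ⌊(x i : ℝ) * (d + 1)⌋₊) with hc
  have hlen : c.length = N := by rw [hc, List.length_ofFn]
  have hget : ∀ i < N, c.getD i 0 = ⌊(x i : ℝ) * (d + 1)⌋₊ := by
    intro i hi
    rw [List.getD_eq_getElem _ _ (by rw [hlen]; exact hi)]
    simp [hc]
  refine ⟨((c, d), (0, m)), ?_, ?_⟩
  · show dQ (ctr (c, d)) x < rad (0, m)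
    have h1 : rad (0, m) = r := by
      unfold rad
      rw [hr]
      simp
    rw [h1]
    have key := dQ_lt_of (x := ctr (c, d)) (y := x) (m := N) (δ := 1 / ((d : ℝ) + 1))
      (by positivity) fun i hi => by
        have h2 : (ctr (c, d) i : ℝ) = ((min (c.getD i 0) (d + 1) : ℕ) : ℝ) / (d + 1) := rfl
        have h3 := (x i).2.1
        have h4 := (x i).2.2
        have h5 : ⌊(x i : ℝ) * (d + 1)⌋₊ ≤ d + 1 := by
          apply Nat.floor_le_of_le
          push_cast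
          nlinarith [(Nat.cast_nonneg d : (0 : ℝ) ≤ d)]
        have hd1 : (0 : ℝ) < (d : ℝ) + 1 := by positivity
        rw [h2, hget i hi, min_eq_left h5]
        have h6 := Nat.floor_le (show 0 ≤ (x i : ℝ) * (d + 1) by positivity)
        have h7 := Nat.lt_floor_add_one ((x i : ℝ) * (d + 1))
        rw [abs_le]
        constructor
        · rw [neg_le_sub_iff_le_add, ← add_div, le_div_iff₀ hd1]
          linarith
        · rw [sub_le_iff_le_add, div_le_iff₀ hd1]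
          have : (1 / ((d : ℝ) + 1) + x i) * (d + 1) = 1 + x i * (d + 1) := by
            field_simp
          rw [this]
          linarith
    linarith
  · show rad (0, m) < ε / 4
    unfold rad
    have h2 : ((0 : ℕ) : ℝ) + 1 = 1 := by norm_num
    simp only
    rw [h2]
    exact hm

theorem rball_sm_inc {b : Bl} {x : Cube} (hx : x ∈ rball b) :
    ∃ ε > 0, ∀ y a, dQ x y < ε → RSm ε a → y ∈ rball a → RInc a b := by
  have h1 : dQ (ctr b.1) x < rad b.2 := hx
  refine ⟨(rad b.2 - dQ (ctr b.1) x) / 2, by linarith, fun y a hxy ha hy => ?_⟩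
  rw [RInc_iff]
  have h2 : dQ (ctr a.1) y < rad a.2 := hy
  unfold RSm at ha
  have h3 := dQ_triangle (ctr a.1) y (ctr b.1)
  have h4 := dQ_triangle y x (ctr b.1)
  rw [dQ_comm y x, dQ_comm x (ctr b.1)] at h4
  linarith

/-- The effective basis of rational balls. -/
noncomputable def ballEB : EB Bl where
  S := rball
  Inc := RInc
  Dis := RDis
  Sm := RSm
  inc_dec := primrec_RInc
  dis_dec := primrec_RDis
  isOpen b := isOpen_dQ _ _
  inc _ _ h := rball_inc h
  dis _ _ h := rball_dis h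
  sm_mono ε ε' l h hl := lt_of_lt_of_le hl (by linarith)
  exists_sm ε hε x := rball_exists hε x
  sm_close ε _ a b ha hb h x hx y hy := rball_close ha hb h hx hy
  sm_inc b x hx := rball_sm_inc hx

end Q204.TY
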