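import Pool.Agent.Q204.TY.CE

set_option autoImplicit false

/-!
# The basis of rational boxes
-/

namespace Q204.TY

/-- The rational number `(a - b) / (c + 1)`. -/
noncomputable def q (t : ℕ × ℕ × ℕ) : ℝ := ((t.1 : ℝ) - t.2.1) / (t.2.2 + 1)

/-- Codes of basic open sets: finite lists of pairs of rational numbers. -/
abbrev Bx : Type := List ((ℕ × ℕ × ℕ) × (ℕ × ℕ × ℕ))

/-- The basic open set with code `l`: the product of the open intervals with the (rational)
endpoints listed in `l` and of `[0,1]` in all other coordinates. -/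
def box (l : Bx) : Set Cube :=
  {x | ∀ i, ∀ h : i < l.length, q l[i].1 < x i ∧ (x i : ℝ) < q l[i].2}

theorem q_le_iff (t t' : ℕ × ℕ × ℕ) : q t ≤ q t' ↔
    t.1 * (t'.2.2 + 1) + t'.2.1 * (t.2.2 + 1) ≤ t'.1 * (t.2.2 + 1) + t.2.1 * (t'.2.2 + 1) := by
  unfold q
  rw [div_le_div_iff₀ (by positivity) (by positivity)]
  have h : (t.1 * (t'.2.2 + 1) + t'.2.1 * (t.2.2 + 1) ≤ t'.1 * (t.2.2 + 1) + t.2.1 * (t'.2.2 + 1)) ↔
      ((t.1 * (t'.2.2 + 1) + t'.2.1 * (t.2.2 + 1) : ℕ) : ℝ) ≤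
      ((t'.1 * (t.2.2 + 1) + t.2.1 * (t'.2.2 + 1) : ℕ) : ℝ) := by
    rw [Nat.cast_le]
  rw [h]
  push_cast
  constructor <;> intro h <;> linarith

/-- Comparison of codes of rational numbers. -/
def qle (t t' : ℕ × ℕ × ℕ) : Prop := q t ≤ q t'

theorem primrec_qle : PrimrecRel qle := by
  have a : Primrec (fun p : (ℕ × ℕ × ℕ) × (ℕ × ℕ × ℕ) => p.1.1) := Primrec.fst.comp Primrec.fst
  have b : Primrec (fun p : (ℕ × ℕ × ℕ) × (ℕ × ℕ × ℕ) => p.1.2.1) :=
    Primrec.fst.comp (Primrec.snd.comp Primrec.fst)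
  have c : Primrec (fun p : (ℕ × ℕ × ℕ) × (ℕ × ℕ × ℕ) => p.1.2.2 + 1) :=
    Primrec.succ.comp (Primrec.snd.comp (Primrec.snd.comp Primrec.fst))
  have a' : Primrec (fun p : (ℕ × ℕ × ℕ) × (ℕ × ℕ × ℕ) => p.2.1) := Primrec.fst.comp Primrec.snd
  have b' : Primrec (fun p : (ℕ × ℕ × ℕ) × (ℕ × ℕ × ℕ) => p.2.2.1) :=
    Primrec.fst.comp (Primrec.snd.comp Primrec.snd)
  have c' : Primrec (fun p : (ℕ × ℕ × ℕ) × (ℕ × ℕ × ℕ) => p.2.2.2 + 1) :=
    Primrec.succ.comp (Primrec.snd.comp (Primrec.snd.comp Primrec.snd))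
  have h := Primrec.nat_le.comp
    (Primrec.nat_add.comp (Primrec.nat_mul.comp a c') (Primrec.nat_mul.comp b' c))
    (Primrec.nat_add.comp (Primrec.nat_mul.comp a' c) (Primrec.nat_mul.comp b c'))
  exact h.of_eq fun p => (q_le_iff p.1 p.2).symm

theorem exists_q (r : ℚ) : ∃ t, q t = r := by
  refine ⟨(r.num.toNat, (-r.num).toNat, r.den - 1), ?_⟩
  unfold q
  have h1 : ((r.num.toNat : ℕ) : ℝ) - (((-r.num).toNat : ℕ) : ℝ) = (r.num : ℝ) := by
    have h : ((r.num.toNat : ℕ) : ℤ) - (((-r.num).toNat : ℕ) : ℤ) = r.num := by omega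
    exact_mod_cast h
  have h2 : (((r.den - 1 : ℕ) : ℝ) + 1) = r.den := by
    have := r.den_pos
    have h : r.den - 1 + 1 = r.den := by omega
    exact_mod_cast h
  simp only
  rw [h1, h2]
  exact (Rat.cast_def r).symm

/-- The default entry. -/
def dflt : (ℕ × ℕ × ℕ) × (ℕ × ℕ × ℕ) := ((0, 0, 0), (0, 0, 0))

theorem mem_box {l : Bx} {x : Cube} : x ∈ box l ↔
    ∀ i < l.length, q (l.getD i dflt).1 < x i ∧ (x i : ℝ) < q (l.getD i dflt).2 := by
  unfold box
  simp only [Set.mem_ofPred_eq]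
  refine forall_congr' fun i => forall_congr' fun h => ?_
  rw [List.getD_eq_getElem _ _ h]

/-- Formal inclusion. -/
def BInc (l l' : Bx) : Prop := ∀ i < l'.length, i < l.length ∧
  q (l'.getD i dflt).1 ≤ q (l.getD i dflt).1 ∧ q (l.getD i dflt).2 ≤ q (l'.getD i dflt).2

/-- Formal disjointness. -/
def BDis (l l' : Bx) : Prop := ∃ i < l.length, i < l'.length ∧
  (q (l.getD i dflt).2 ≤ q (l'.getD i dflt).1 ∨ q (l'.getD i dflt).2 ≤ q (l.getD i dflt).1)

theorem primrec_getD : Primrec₂ (fun (l : Bx) (i : ℕ) => l.getD i dflt) := Primrec.list_getD dflt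

theorem primrec_BInc : PrimrecRel BInc := by
  have g1 : Primrec (fun p : ℕ × (Bx × Bx) => p.2.1.getD p.1 dflt) :=
    primrec_getD.comp (Primrec.fst.comp Primrec.snd) Primrec.fst
  have g2 : Primrec (fun p : ℕ × (Bx × Bx) => p.2.2.getD p.1 dflt) :=
    primrec_getD.comp (Primrec.snd.comp Primrec.snd) Primrec.fst
  have h1 : PrimrecPred (fun p : ℕ × (Bx × Bx) => p.1 < p.2.1.length) :=
    Primrec.nat_lt.comp Primrec.fst (Primrec.list_length.comp (Primrec.fst.comp Primrec.snd))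
  have h2 : PrimrecPred (fun p : ℕ × (Bx × Bx) =>
      q (p.2.2.getD p.1 dflt).1 ≤ q (p.2.1.getD p.1 dflt).1) :=
    PrimrecRel.comp (R := qle) primrec_qle (Primrec.fst.comp g2) (Primrec.fst.comp g1)
  have h3 : PrimrecPred (fun p : ℕ × (Bx × Bx) =>
      q (p.2.1.getD p.1 dflt).2 ≤ q (p.2.2.getD p.1 dflt).2) :=
    PrimrecRel.comp (R := qle) primrec_qle (Primrec.snd.comp g1) (Primrec.snd.comp g2)
  have h : PrimrecRel (fun (i : ℕ) (p : Bx × Bx) => i < p.1.length ∧
      q (p.2.getD i dflt).1 ≤ q (p.1.getD i dflt).1 ∧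
      q (p.1.getD i dflt).2 ≤ q (p.2.getD i dflt).2) := h1.and (h2.and h3)
  have h2 : PrimrecRel (fun (n : ℕ) (p : Bx × Bx) => ∀ i < n, i < p.1.length ∧
      q (p.2.getD i dflt).1 ≤ q (p.1.getD i dflt).1 ∧
      q (p.1.getD i dflt).2 ≤ q (p.2.getD i dflt).2) :=
    (h.forall_mem_list.comp (Primrec.list_range.comp Primrec.fst) Primrec.snd).of_eq (by simp)
  have h' := h2.comp (Primrec.list_length.comp (Primrec.snd (α := Bx) (β := Bx)))
      (Primrec.id (α := Bx × Bx))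
  exact h'

theorem primrec_BDis : PrimrecRel BDis := by
  have g1 : Primrec (fun p : ℕ × (Bx × Bx) => p.2.1.getD p.1 dflt) :=
    primrec_getD.comp (Primrec.fst.comp Primrec.snd) Primrec.fst
  have g2 : Primrec (fun p : ℕ × (Bx × Bx) => p.2.2.getD p.1 dflt) :=
    primrec_getD.comp (Primrec.snd.comp Primrec.snd) Primrec.fst
  have h1 : PrimrecPred (fun p : ℕ × (Bx × Bx) => p.1 < p.2.2.length) :=
    Primrec.nat_lt.comp Primrec.fst (Primrec.list_length.comp (Primrec.snd.comp Primrec.snd))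
  have h2 : PrimrecPred (fun p : ℕ × (Bx × Bx) =>
      q (p.2.1.getD p.1 dflt).2 ≤ q (p.2.2.getD p.1 dflt).1) :=
    PrimrecRel.comp (R := qle) primrec_qle (Primrec.snd.comp g1) (Primrec.fst.comp g2)
  have h3 : PrimrecPred (fun p : ℕ × (Bx × Bx) =>
      q (p.2.2.getD p.1 dflt).2 ≤ q (p.2.1.getD p.1 dflt).1) :=
    PrimrecRel.comp (R := qle) primrec_qle (Primrec.snd.comp g2) (Primrec.fst.comp g1)
  have h : PrimrecRel (fun (i : ℕ) (p : Bx × Bx) => i < p.2.length ∧
      (q (p.1.getD i dflt).2 ≤ q (p.2.getD i dflt).1 ∨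
      q (p.2.getD i dflt).2 ≤ q (p.1.getD i dflt).1)) := h1.and (h2.or h3)
  have h2 : PrimrecRel (fun (n : ℕ) (p : Bx × Bx) => ∃ i < n, i < p.2.length ∧
      (q (p.1.getD i dflt).2 ≤ q (p.2.getD i dflt).1 ∨
      q (p.2.getD i dflt).2 ≤ q (p.1.getD i dflt).1)) :=
    (h.exists_mem_list.comp (Primrec.list_range.comp Primrec.fst) Primrec.snd).of_eq (by simp)
  have h' := h2.comp (Primrec.list_length.comp (Primrec.fst (α := Bx) (β := Bx)))
      (Primrec.id (α := Bx × Bx))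
  exact h'

/-- Smallness. -/
def BSm (ε : ℝ) (l : Bx) : Prop :=
  (∀ i < l.length, q (l.getD i dflt).2 - q (l.getD i dflt).1 < ε / 8) ∧ (1 / 2 : ℝ) ^ l.length < ε / 8

theorem dQ_lt_of {x y : Cube} {m : ℕ} {δ : ℝ} (hδ : 0 ≤ δ) (h : ∀ i < m, |(x i : ℝ) - y i| ≤ δ) :
    dQ x y ≤ 2 * δ + 2 * (1 / 2) ^ m := by
  unfold dQ
  have hs := summable_dQ x y
  rw [← hs.sum_add_tsum_nat_add m]
  have hgeo : Summable (fun n : ℕ => (1 / 2 : ℝ) ^ n) :=
    summable_geometric_of_lt_one (by norm_num) (by norm_num)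
  have hgs : ∑' n : ℕ, (1 / 2 : ℝ) ^ n = 2 := tsum_geometric_two
  apply add_le_add
  · calc ∑ i ∈ Finset.range m, (1 / 2 : ℝ) ^ i * |(x i : ℝ) - y i|
        ≤ ∑ i ∈ Finset.range m, (1 / 2 : ℝ) ^ i * δ :=
          Finset.sum_le_sum fun i hi =>
            mul_le_mul_of_nonneg_left (h i (Finset.mem_range.1 hi)) (by positivity)
      _ = (∑ i ∈ Finset.range m, (1 / 2 : ℝ) ^ i) * δ := by rw [Finset.sum_mul]
      _ ≤ 2 * δ := by
          apply mul_le_mul_of_nonneg_right _ hδ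
          exact (hgeo.sum_le_tsum (Finset.range m) fun i _ => by positivity).trans hgs.le
  · calc ∑' i, (1 / 2 : ℝ) ^ (i + m) * |(x (i + m) : ℝ) - y (i + m)|
        ≤ ∑' i : ℕ, (1 / 2 : ℝ) ^ i * (1 / 2) ^ m := by
          refine ((summable_nat_add_iff m).2 hs).tsum_le_tsum (fun i => ?_) (hgeo.mul_right _)
          rw [pow_add]
          calc (1 / 2 : ℝ) ^ i * (1 / 2) ^ m * |(x (i + m) : ℝ) - y (i + m)|
              ≤ (1 / 2 : ℝ) ^ i * (1 / 2) ^ m * 1 :=
                mul_le_mul_of_nonneg_left (abs_sub_le_one _ _) (by positivity)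
            _ = _ := mul_one _
      _ = 2 * (1 / 2) ^ m := by rw [tsum_mul_right, hgs]

theorem isOpen_box (l : Bx) : IsOpen (box l) := by
  have : box l = ⋂ i ∈ Finset.range l.length,
      {x : Cube | q (l.getD i dflt).1 < x i ∧ (x i : ℝ) < q (l.getD i dflt).2} := by
    ext x
    rw [mem_box]
    simp
  rw [this]
  refine isOpen_biInter_finset fun i _ => ?_
  have hc : Continuous (fun x : Cube => (x i : ℝ)) :=
    continuous_subtype_val.comp (continuous_apply i)
  exact (isOpen_lt continuous_const hc).inter (isOpen_lt hc continuous_const)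

theorem box_inc {l l' : Bx} (h : BInc l l') : box l ⊆ box l' := by
  intro x hx
  rw [mem_box] at hx ⊢
  intro i hi
  obtain ⟨h1, h2, h3⟩ := h i hi
  obtain ⟨h4, h5⟩ := hx i h1
  exact ⟨h2.trans_lt h4, h5.trans_le h3⟩

theorem box_dis {l l' : Bx} (h : BDis l l') : Disjoint (box l) (box l') := by
  rw [Set.disjoint_left]
  intro x hx hx'
  rw [mem_box] at hx hx'
  obtain ⟨i, hi, hi', h⟩ := h
  obtain ⟨h1, h2⟩ := hx i hi
  obtain ⟨h3, h4⟩ := hx' i hi'
  rcases h with h | h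
  · linarith
  · linarith

theorem box_close {ε : ℝ} {l l' : Bx} (hl : BSm ε l) (hl' : BSm ε l') (h : ¬ BDis l l')
    {x y : Cube} (hx : x ∈ box l) (hy : y ∈ box l') : dQ x y < ε := by
  have hε : 0 < ε := by
    have := hl.2
    have h2 : (0 : ℝ) < (1 / 2) ^ l.length := by positivity
    linarith
  rw [mem_box] at hx hy
  unfold BDis at h
  push Not at h
  have key := dQ_lt_of (x := x) (y := y) (m := min l.length l'.length) (δ := ε / 4)
    (by positivity) fun i hi => by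
      have hi1 := lt_of_lt_of_le hi (min_le_left _ _)
      have hi2 := lt_of_lt_of_le hi (min_le_right _ _)
      obtain ⟨h1, h2⟩ := h i hi1 hi2
      obtain ⟨h3, h4⟩ := hx i hi1
      obtain ⟨h5, h6⟩ := hy i hi2
      have h7 := hl.1 i hi1
      have h8 := hl'.1 i hi2
      rw [abs_le]
      constructor <;> linarith
  have hm : (1 / 2 : ℝ) ^ (min l.length l'.length) < ε / 8 := by
    rcases min_choice l.length l'.length with h | h
    · rw [h]; exact hl.2
    · rw [h]; exact hl'.2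
  linarith

theorem box_exists {ε : ℝ} (hε : 0 < ε) (x : Cube) : ∃ l, x ∈ box l ∧ BSm ε l := by
  obtain ⟨N, hN⟩ := exists_pow_lt_of_lt_one (show (0 : ℝ) < ε / 8 by positivity)
    (show (1 / 2 : ℝ) < 1 by norm_num)
  have h1 : ∀ i : ℕ, ∃ t, (x i : ℝ) - ε / 16 < q t ∧ q t < x i := by
    intro i
    obtain ⟨r, hr1, hr2⟩ := exists_rat_btwn (show (x i : ℝ) - ε / 16 < x i by linarith)
    obtain ⟨t, ht⟩ := exists_q r
    exact ⟨t, by rw [ht]; exact hr1, by rw [ht]; exact hr2⟩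
  have h2 : ∀ i : ℕ, ∃ t, (x i : ℝ) < q t ∧ q t < x i + ε / 16 := by
    intro i
    obtain ⟨r, hr1, hr2⟩ := exists_rat_btwn (show (x i : ℝ) < x i + ε / 16 by linarith)
    obtain ⟨t, ht⟩ := exists_q r
    exact ⟨t, by rw [ht]; exact hr1, by rw [ht]; exact hr2⟩
  choose a ha1 ha2 using h1
  choose b hb1 hb2 using h2
  set l : Bx := List.ofFn (fun i : Fin N => (a i, b i)) with hl
  have hlen : l.length = N := by rw [hl, List.length_ofFn]
  have hget : ∀ i < N, l.getD i dflt = (a i, b i) := by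
    intro i hi
    rw [List.getD_eq_getElem _ _ (by rw [hlen]; exact hi)]
    simp [hl]
  refine ⟨l, ?_, ?_, ?_⟩
  · rw [mem_box]
    intro i hi
    rw [hlen] at hi
    rw [hget i hi]
    exact ⟨ha2 i, hb1 i⟩
  · intro i hi
    rw [hlen] at hi
    rw [hget i hi]
    have := ha1 i
    have := hb2 i
    simp only
    linarith
  · rw [hlen]
    exact hN

theorem box_sm_inc {l : Bx} {x : Cube} (hx : x ∈ box l) :
    ∃ ε > 0, ∀ y a, dQ x y < ε → BSm ε a → y ∈ box a → BInc a l := by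
  rw [mem_box] at hx
  obtain ⟨γ, hγ, hγ'⟩ : ∃ γ > 0, ∀ i < l.length, γ < (x i : ℝ) - q (l.getD i dflt).1 ∧
      γ < q (l.getD i dflt).2 - x i := by
    have : ∀ n, (n ≤ l.length) → ∃ γ > 0, ∀ i < n, γ < (x i : ℝ) - q (l.getD i dflt).1 ∧
      γ < q (l.getD i dflt).2 - x i := by
      intro n
      induction n with
      | zero => exact fun _ => ⟨1, one_pos, fun i hi => absurd hi (by omega)⟩
      | succ n ih =>
        intro hn
        obtain ⟨γ, hγ, h⟩ := ih (by omega)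
        obtain ⟨h1, h2⟩ := hx n (by omega)
        set m : ℝ := min ((x n : ℝ) - q (l.getD n dflt).1) (q (l.getD n dflt).2 - x n) with hm
        have hmpos : 0 < m := lt_min (by linarith) (by linarith)
        refine ⟨min γ (m / 2), lt_min hγ (by positivity), fun i hi => ?_⟩
        rcases Nat.lt_succ_iff_lt_or_eq.1 hi with hi | rfl
        · obtain ⟨h3, h4⟩ := h i hi
          exact ⟨(min_le_left _ _).trans_lt h3, (min_le_left _ _).trans_lt h4⟩
        · have e1 : m ≤ (x i : ℝ) - q (l.getD i dflt).1 := min_le_left _ _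
          have e2 : m ≤ q (l.getD i dflt).2 - x i := min_le_right _ _
          have e3 : min γ (m / 2) ≤ m / 2 := min_le_right _ _
          constructor <;> linarith
    exact this _ le_rfl
  set N := l.length with hN
  have h2N : (1 : ℝ) ≤ 2 ^ N := one_le_pow₀ (by norm_num)
  set ε : ℝ := min γ 1 / (2 * 2 ^ N) with hε
  have hεpos : 0 < ε := by positivity
  have hε1 : 2 ^ N * ε ≤ γ / 2 := by
    have : 2 ^ N * ε = min γ 1 / 2 := by
      rw [hε]
      field_simp
    rw [this]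
    have := min_le_left γ 1
    linarith
  have hε2 : ε ≤ γ / 2 := by
    calc ε = 1 * ε := (one_mul _).symm
      _ ≤ 2 ^ N * ε := mul_le_mul_of_nonneg_right h2N hεpos.le
      _ ≤ γ / 2 := hε1
  have hε3 : ε ≤ (1 / 2) ^ N := by
    rw [hε, one_div, inv_pow, ← one_div]
    rw [div_le_div_iff₀ (by positivity) (by positivity)]
    have := min_le_right γ 1
    nlinarith
  refine ⟨ε, hεpos, fun y a hxy ha hy i hi => ?_⟩
  have hlen : N < a.length := by
    by_contra hcon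
    have h1 : (1 / 2 : ℝ) ^ N ≤ (1 / 2) ^ a.length :=
      pow_le_pow_of_le_one (by norm_num) (by norm_num) (not_lt.1 hcon)
    have h2 := ha.2
    linarith
  have hia : i < a.length := lt_trans hi hlen
  rw [mem_box] at hy
  obtain ⟨h1, h2⟩ := hy i hia
  have h3 := ha.1 i hia
  obtain ⟨h4, h5⟩ := hγ' i hi
  have h6 := coord_le x y i
  have h7 : (2 : ℝ) ^ i * dQ x y ≤ 2 ^ N * ε := by
    apply mul_le_mul (pow_le_pow_right₀ (by norm_num) hi.le) hxy.le (dQ_nonneg _ _) (by positivity)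
  have h8 : |(x i : ℝ) - y i| ≤ γ / 2 := h6.trans (h7.trans hε1)
  rw [abs_le] at h8
  refine ⟨hia, ?_, ?_⟩ <;> linarith

/-- The effective basis of rational boxes. -/
noncomputable def boxEB : EB Bx where
  S := box
  Inc := BInc
  Dis := BDis
  Sm := BSm
  inc_dec := primrec_BInc
  dis_dec := primrec_BDis
  isOpen := isOpen_box
  inc _ _ h := box_inc h
  dis _ _ h := box_dis h
  sm_mono ε ε' l h hl := ⟨fun i hi => (hl.1 i hi).trans_le (by linarith), hl.2.trans_le (by linarith)⟩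
  exists_sm ε hε x := box_exists hε x
  sm_close ε _ a b ha hb h x hx y hy := box_close ha hb h hx hy
  sm_inc b x hx := box_sm_inc hx

end Q204.TY
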