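import Pool.Agent.Q204.TY.Compl
import Mathlib.Computability.RecursiveIn

set_option autoImplicit false

/-!
# Computable enumerability relative to an oracle
-/

namespace Q204.TY

/-- The characteristic function of an oracle. -/
noncomputable def orc (O : Set ℕ) : ℕ →. ℕ := fun n => Part.some (O.indicator 1 n)

/-- `S` is computably enumerable relative to `O`: it is a projection of a relation decided by a
total function which is recursive in (the characteristic function of) `O`. -/
def CEIn {α : Type} [Primcodable α] (O : Set ℕ) (S : Set α) : Prop :=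
  ∃ R : ℕ → ℕ, Nat.RecursiveIn {orc O} (fun n => Part.some (R n)) ∧
    ∀ a, a ∈ S ↔ ∃ m, R (Nat.pair (Encodable.encode a) m) = 1

section
variable {O : Set (ℕ →. ℕ)} {R : ℕ → ℕ}

theorem rec_comp (hR : Nat.RecursiveIn O (fun n => Part.some (R n))) {g : ℕ → ℕ}
    (hg : Nat.RecursiveIn O (fun n => Part.some (g n))) :
    Nat.RecursiveIn O (fun n => Part.some (R (g n))) := by
  refine (Nat.RecursiveIn.comp hR hg).of_eq fun n => ?_
  simp

theorem rec_pair {g : ℕ → ℕ} (hR : Nat.RecursiveIn O (fun n => Part.some (R n)))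
    (hg : Nat.RecursiveIn O (fun n => Part.some (g n))) :
    Nat.RecursiveIn O (fun n => Part.some (Nat.pair (R n) (g n))) := by
  refine (Nat.RecursiveIn.pair hR hg).of_eq fun n => ?_
  simp [Seq.seq]

theorem rec_prim {g : ℕ → ℕ} (hg : Primrec g) :
    Nat.RecursiveIn O (fun n => Part.some (g n)) :=
  (Nat.Primrec.recursiveIn (Primrec.nat_iff.1 hg)).of_eq fun _ => rfl

end

section
variable {α β : Type} [Primcodable α] [Primcodable β]

open Classical in
/-- The flag. -/
noncomputable def flag (P : β × ℕ → Prop) (p : ℕ) : ℕ :=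
  match Encodable.decode (α := β) p.unpair.1 with
  | none => 0
  | some b => if P (b, p.unpair.2.unpair.1) then 1 else 0

/-- The index. -/
def idx (g : β × ℕ → α) (p : ℕ) : ℕ :=
  match Encodable.decode (α := β) p.unpair.1 with
  | none => 0
  | some b => Nat.pair (Encodable.encode (g (b, p.unpair.2.unpair.1))) p.unpair.2.unpair.2

theorem primrec_flag {P : β × ℕ → Prop} (hP : PrimrecPred P) : Primrec (flag P) := by
  classical
  obtain ⟨hD, hP⟩ := hP
  have h1 : Primrec (fun p : ℕ => Encodable.decode (α := β) p.unpair.1) :=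
    Primrec.decode.comp (Primrec.fst.comp Primrec.unpair)
  have h2 : Primrec₂ (fun (p : ℕ) (b : β) => if P (b, p.unpair.2.unpair.1) then (1 : ℕ) else 0) := by
    have h3 : Primrec (fun q : ℕ × β => (q.2, q.1.unpair.2.unpair.1)) :=
      Primrec.pair Primrec.snd (Primrec.fst.comp (Primrec.unpair.comp (Primrec.snd.comp
        (Primrec.unpair.comp Primrec.fst))))
    have h4 : PrimrecPred (fun q : ℕ × β => P (q.2, q.1.unpair.2.unpair.1)) :=
      PrimrecPred.comp ⟨hD, hP⟩ h3
    have h5 := Primrec.ite h4 (Primrec.const (1 : ℕ)) (Primrec.const 0)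
    exact h5.of_eq fun q => by
      congr
  exact (Primrec.option_casesOn h1 (Primrec.const 0) h2).of_eq fun p => by
    unfold flag
    cases Encodable.decode (α := β) p.unpair.1 with
    | none => rfl
    | some b =>
      show (if P (b, p.unpair.2.unpair.1) then 1 else 0) = _
      by_cases hb : P (b, p.unpair.2.unpair.1)
      · simp [hb]
      · simp [hb]

theorem primrec_idx {g : β × ℕ → α} (hg : Primrec g) : Primrec (idx g) := by
  have h1 : Primrec (fun p : ℕ => Encodable.decode (α := β) p.unpair.1) :=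
    Primrec.decode.comp (Primrec.fst.comp Primrec.unpair)
  have h3 : Primrec (fun q : ℕ × β => (q.2, q.1.unpair.2.unpair.1)) :=
    Primrec.pair Primrec.snd (Primrec.fst.comp (Primrec.unpair.comp (Primrec.snd.comp
      (Primrec.unpair.comp Primrec.fst))))
  have h2 : Primrec₂ (fun (p : ℕ) (b : β) =>
      Nat.pair (Encodable.encode (g (b, p.unpair.2.unpair.1))) p.unpair.2.unpair.2) :=
    Primrec₂.natPair.comp (Primrec.encode.comp (hg.comp h3))
      (Primrec.snd.comp (Primrec.unpair.comp (Primrec.snd.comp (Primrec.unpair.comp Primrec.fst))))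
  exact (Primrec.option_casesOn h1 (Primrec.const 0) h2).of_eq fun p => by
    unfold idx
    cases Encodable.decode (α := β) p.unpair.1 <;> rfl

theorem CEIn.proj {O : Set ℕ} {S : Set α} (hS : CEIn O S) {T : Set β} {P : β × ℕ → Prop}
    (hP : PrimrecPred P) {g : β × ℕ → α} (hg : Primrec g)
    (h : ∀ b, b ∈ T ↔ ∃ n, P (b, n) ∧ g (b, n) ∈ S) : CEIn O T := by
  obtain ⟨R, hR, hRS⟩ := hS
  refine ⟨fun p => flag P p * R (idx g p), ?_, fun b => ?_⟩
  · have h1 := rec_comp hR (rec_prim (primrec_idx hg))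
    have h2 := rec_pair (rec_prim (primrec_flag hP)) h1
    have h3 : Primrec (fun p : ℕ => p.unpair.1 * p.unpair.2) :=
      Primrec.nat_mul.comp (Primrec.fst.comp Primrec.unpair) (Primrec.snd.comp Primrec.unpair)
    exact (rec_comp (rec_prim h3) h2).of_eq fun n => by
      simp
  · rw [h]
    constructor
    · rintro ⟨n, hn, hgn⟩
      rw [hRS] at hgn
      obtain ⟨m, hm⟩ := hgn
      refine ⟨Nat.pair n m, ?_⟩
      simp only [flag, idx, Nat.unpair_pair, Encodable.encodek, hn, if_true, hm]
    · rintro ⟨p, hp⟩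
      simp only [flag, idx, Nat.unpair_pair, Encodable.encodek] at hp
      by_cases hP' : P (b, p.unpair.1)
      · simp only [Nat.unpair_pair, hP', if_true, one_mul] at hp
        exact ⟨p.unpair.1, hP', (hRS _).2 ⟨_, hp⟩⟩
      · simp [Nat.unpair_pair, hP'] at hp

end

section
variable {α : Type} [Primcodable α]

theorem primrec_pow : Primrec₂ ((· ^ ·) : ℕ → ℕ → ℕ) := Primrec₂.unpaired'.1 Nat.Primrec.pow

theorem primrec_tp : Primrec₂ tp := by
  have h : PrimrecPred (fun p : ℕ × ℕ => p.1 + 4 ≤ p.2) :=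
    Primrec.nat_le.comp (Primrec.nat_add.comp Primrec.fst (Primrec.const 4)) Primrec.snd
  exact Primrec.ite h (Primrec.const 1) (Primrec.const 0)

theorem primrec_mem (A : List (α × ℕ × ℕ)) : PrimrecPred (fun a : α × ℕ × ℕ => a ∈ A) := by
  have h := PrimrecRel.exists_mem_list (R := fun a b : α × ℕ × ℕ => a = b) Primrec.eq
  have h2 : PrimrecPred (fun b : α × ℕ × ℕ => ∃ a ∈ A, a = b) :=
    PrimrecRel.comp h (Primrec.const A) Primrec.id
  exact h2.of_eq fun b => by simp

theorem primrec_ok1 (E : EB α) (A : List (α × ℕ × ℕ)) :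
    PrimrecRel (fun (e : Entry α) (k : ℕ) => Ok1 E A k e) := by
  have e1 : Primrec (fun p : Entry α × ℕ => p.1.2.1) := Primrec.fst.comp (Primrec.snd.comp Primrec.fst)
  have e2 : Primrec (fun p : Entry α × ℕ => p.1.1) := Primrec.fst.comp Primrec.fst
  have e3 : Primrec (fun p : Entry α × ℕ => p.1.2.1.1) := Primrec.fst.comp e1
  have e4 : Primrec (fun p : Entry α × ℕ => p.1.2.2) := Primrec.snd.comp (Primrec.snd.comp Primrec.fst)
  have e5 : Primrec (fun p : Entry α × ℕ => p.1.2.2.1) := Primrec.fst.comp e4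
  have e6 : Primrec (fun p : Entry α × ℕ => p.1.2.2.2.1) := Primrec.fst.comp (Primrec.snd.comp e4)
  have h1 : PrimrecPred (fun p : Entry α × ℕ => p.1.2.1 ∈ A) := PrimrecPred.comp (primrec_mem A) e1
  have h2 : PrimrecPred (fun p : Entry α × ℕ => E.Inc p.1.1 p.1.2.1.1) :=
    PrimrecRel.comp E.inc_dec e2 e3
  have h3 : PrimrecPred (fun p : Entry α × ℕ => 0 < p.1.2.2.2.1) :=
    Primrec.nat_lt.comp (Primrec.const 0) e6
  have h4 : PrimrecPred (fun p : Entry α × ℕ => 2 ^ p.2 % p.1.2.2.2.1 = p.1.2.2.1 % p.1.2.2.2.1) :=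
    PrimrecRel.comp Primrec.eq
      (Primrec.nat_mod.comp (primrec_pow.comp (Primrec.const 2) Primrec.snd) e6)
      (Primrec.nat_mod.comp e5 e6)
  exact (h1.and (h2.and (h3.and h4.not))).of_eq fun p => Iff.rfl

theorem primrec_ok2 (E : EB α) : PrimrecRel (Ok2 E) := by
  have l1 : Primrec (fun p : Entry α × Entry α => p.1.1) := Primrec.fst.comp Primrec.fst
  have l2 : Primrec (fun p : Entry α × Entry α => p.1.2.2) := Primrec.snd.comp (Primrec.snd.comp Primrec.fst)
  have lc : Primrec (fun p : Entry α × Entry α => p.1.2.2.1) := Primrec.fst.comp l2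
  have lm : Primrec (fun p : Entry α × Entry α => p.1.2.2.2.1) := Primrec.fst.comp (Primrec.snd.comp l2)
  have lb : Primrec (fun p : Entry α × Entry α => p.1.2.2.2.2) := Primrec.snd.comp (Primrec.snd.comp l2)
  have la : Primrec (fun p : Entry α × Entry α => p.1.2.1.2) :=
    Primrec.snd.comp (Primrec.fst.comp (Primrec.snd.comp Primrec.fst))
  have la1 : Primrec (fun p : Entry α × Entry α => p.1.2.1.2.1) := Primrec.fst.comp la
  have la2 : Primrec (fun p : Entry α × Entry α => p.1.2.1.2.2) := Primrec.snd.comp la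
  have r1 : Primrec (fun p : Entry α × Entry α => p.2.1) := Primrec.fst.comp Primrec.snd
  have r2 : Primrec (fun p : Entry α × Entry α => p.2.2.2) := Primrec.snd.comp (Primrec.snd.comp Primrec.snd)
  have rc : Primrec (fun p : Entry α × Entry α => p.2.2.2.1) := Primrec.fst.comp r2
  have rm : Primrec (fun p : Entry α × Entry α => p.2.2.2.2.1) := Primrec.fst.comp (Primrec.snd.comp r2)
  have rb : Primrec (fun p : Entry α × Entry α => p.2.2.2.2.2) := Primrec.snd.comp (Primrec.snd.comp r2)
  have ra : Primrec (fun p : Entry α × Entry α => p.2.2.1.2) :=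
    Primrec.snd.comp (Primrec.fst.comp (Primrec.snd.comp Primrec.snd))
  have ra1 : Primrec (fun p : Entry α × Entry α => p.2.2.1.2.1) := Primrec.fst.comp ra
  have ra2 : Primrec (fun p : Entry α × Entry α => p.2.2.1.2.2) := Primrec.snd.comp ra
  have h1 : PrimrecPred (fun p : Entry α × Entry α => E.Dis p.1.1 p.2.1) :=
    PrimrecRel.comp E.dis_dec l1 r1
  have h2 : PrimrecPred (fun p : Entry α × Entry α => p.1.2.2.1 = p.2.2.2.1) :=
    PrimrecRel.comp Primrec.eq lc rc
  have h3 : PrimrecPred (fun p : Entry α × Entry α => p.1.2.2.2.1 = p.2.2.2.2.1) :=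
    PrimrecRel.comp Primrec.eq lm rm
  have h4 : PrimrecPred (fun p : Entry α × Entry α =>
      (p.2.2.2.2.2 + tp p.1.2.1.2.1 p.2.2.1.2.1 + p.1.2.2.1 * tp p.2.2.1.2.2 p.1.2.1.2.2) % p.1.2.2.2.1 =
      (p.1.2.2.2.2 + tp p.2.2.1.2.1 p.1.2.1.2.1 + p.1.2.2.1 * tp p.1.2.1.2.2 p.2.2.1.2.2) % p.1.2.2.2.1) :=
    PrimrecRel.comp Primrec.eq
      (Primrec.nat_mod.comp (Primrec.nat_add.comp (Primrec.nat_add.comp rb (primrec_tp.comp la1 ra1))
        (Primrec.nat_mul.comp lc (primrec_tp.comp ra2 la2))) lm)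
      (Primrec.nat_mod.comp (Primrec.nat_add.comp (Primrec.nat_add.comp lb (primrec_tp.comp ra1 la1))
        (Primrec.nat_mul.comp lc (primrec_tp.comp la2 ra2))) lm)
  exact (h1.or (h2.and (h3.and h4))).of_eq fun p => Iff.rfl

theorem primrec_ok (E : EB α) (A : List (α × ℕ × ℕ)) : PrimrecPred (Ok E A) := by
  have h1 : PrimrecPred (fun x : ℕ × List (Entry α) => ∀ e ∈ x.2, Ok1 E A x.1 e) :=
    PrimrecRel.comp (PrimrecRel.forall_mem_list (primrec_ok1 E A)) Primrec.snd Primrec.fst
  have h2 : PrimrecRel (fun (L : List (Entry α)) (e : Entry α) => ∀ e' ∈ L, Ok2 E e e') := by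
    have : PrimrecRel (fun e' e : Entry α => Ok2 E e e') := PrimrecRel.comp (primrec_ok2 E) Primrec.snd Primrec.fst
    exact PrimrecRel.forall_mem_list this
  have h3 : PrimrecRel (fun (e : Entry α) (L : List (Entry α)) => ∀ e' ∈ L, Ok2 E e e') :=
    PrimrecRel.comp h2 Primrec.snd Primrec.fst
  have h4 : PrimrecPred (fun x : ℕ × List (Entry α) => ∀ e ∈ x.2, ∀ e' ∈ x.2, Ok2 E e e') :=
    PrimrecRel.comp (PrimrecRel.forall_mem_list h3) Primrec.snd Primrec.snd
  exact (h1.and h4).of_eq fun x => Iff.rfl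

/-- The set of basic sets which meet the copy is c.e. relative to every oracle which enumerates
the finite covers. -/
theorem main (E : EB α) {f : X → Cube} (hf : Continuous f) (hinj : Function.Injective f)
    {O : Set ℕ} (hO : CEIn O {L : List α | Set.range f ⊆ ⋃ b ∈ L, E.S b}) :
    CEIn O {b : α | (E.S b ∩ Set.range f).Nonempty} := by
  classical
  obtain ⟨A, hA, ε₀, hε₀, hA'⟩ := exists_adv (E := E) hf hinj
  have hdec : Primrec (fun p : α × ℕ => Encodable.decode (α := ℕ × List (Entry α)) p.2) :=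
    Primrec.decode.comp Primrec.snd
  have hP : PrimrecPred (fun p : α × ℕ => ∃ x ∈ Encodable.decode (α := ℕ × List (Entry α)) p.2,
      Ok E A x) := by
    have h1 := primrec_ok E A
    obtain ⟨hD, h1⟩ := h1
    have h2 : Primrec (fun p : α × ℕ =>
        Option.elim (Encodable.decode (α := ℕ × List (Entry α)) p.2) false
          (fun x => decide (Ok E A x))) := by
      have h5 : Primrec₂ (fun (_ : α × ℕ) (x : ℕ × List (Entry α)) => decide (Ok E A x)) := by
        refine (h1.comp (Primrec.snd (α := α × ℕ))).of_eq fun p => ?_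
        congr
      refine (Primrec.option_casesOn hdec (Primrec.const false) h5).of_eq fun p => ?_
      cases Encodable.decode (α := ℕ × List (Entry α)) p.2 <;> rfl
    have h3 : PrimrecPred (fun p : α × ℕ =>
        Option.elim (Encodable.decode (α := ℕ × List (Entry α)) p.2) false
          (fun x => decide (Ok E A x)) = true) := PrimrecRel.comp Primrec.eq h2 (Primrec.const true)
    refine h3.of_eq fun p => ?_
    cases Encodable.decode (α := ℕ × List (Entry α)) p.2 with
    | none => simp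
    | some x => simp
  have hg : Primrec (fun p : α × ℕ =>
      p.1 :: ((Encodable.decode (α := ℕ × List (Entry α)) p.2).getD (0, [])).2.map Prod.fst) := by
    refine Primrec.list_cons.comp Primrec.fst (Primrec.list_map ?_ ?_)
    · exact Primrec.snd.comp (Primrec.option_getD.comp hdec (Primrec.const _))
    · exact Primrec.fst.comp Primrec.snd
  refine hO.proj hP hg fun b => ?_
  constructor
  · rintro ⟨y, hyb, x₁, rfl⟩
    obtain ⟨x, hok, hx⟩ := complete E hf hinj hA hε₀ hA' hyb
    refine ⟨Encodable.encode x, ⟨x, by simp [Encodable.encodek], hok⟩, ?_⟩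
    rintro _ ⟨y, rfl⟩
    simp only [Encodable.encodek, Option.getD_some]
    rw [Set.mem_iUnion₂]
    rcases hx y with hy | ⟨e, he, hy⟩
    · exact ⟨b, List.mem_cons_self, hy⟩
    · exact ⟨e.1, List.mem_cons_of_mem _ (List.mem_map.2 ⟨e, he, rfl⟩), hy⟩
  · rintro ⟨n, ⟨⟨k, L⟩, hdn, hok⟩, hn⟩
    have hdn' : Encodable.decode (α := ℕ × List (Entry α)) n = some (k, L) := hdn
    simp only [Set.mem_ofPred_eq, hdn', Option.getD_some] at hn
    obtain ⟨x, hx⟩ := sound hA hf hok (B := b) fun y => by
      have := hn ⟨y, rfl⟩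
      rw [Set.mem_iUnion₂] at this
      obtain ⟨c, hc, hyc⟩ := this
      rcases List.mem_cons.1 hc with rfl | hc
      · exact Or.inl hyc
      · obtain ⟨e, he, rfl⟩ := List.mem_map.1 hc
        exact Or.inr ⟨e, he, hyc⟩
    exact ⟨f x, hx, x, rfl⟩

end

end Q204.TY
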