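import Pool.Agent.Q204.TY.Sound

set_option autoImplicit false

/-!
# Certificates: completeness
-/

namespace Q204.TY

open Topology

/-! ### The pieces -/

/-- The number of initial bits equal to `1`, at most `k`. -/
def PP (x : X) : ℕ → ℕ
  | 0 => 0
  | k + 1 => if bit x k = true then k + 1 else PP x k

theorem PP_spec (x : X) (k : ℕ) : (∀ n < PP x k, bit x n = true) ∧
    (PP x k < k → bit x (PP x k) = false) ∧ PP x k ≤ k := by
  induction k with
  | zero => exact ⟨fun n hn => absurd hn (by simp [PP]), fun h => absurd h (by simp [PP]),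
      by simp [PP]⟩
  | succ k ih =>
    obtain ⟨h1, h2, h3⟩ := ih
    unfold PP
    split_ifs with hb
    · exact ⟨fun n hn => bit_mono x (by omega) hb, fun h => absurd h (by omega), le_rfl⟩
    · refine ⟨h1, fun _ => ?_, by omega⟩
      rcases Nat.lt_or_ge (PP x k) k with h4 | h4
      · exact h2 h4
      · have : PP x k = k := by omega
        rw [this]
        simpa using hb

theorem continuous_PP (k : ℕ) : Continuous (fun x : X => PP x k) := by
  induction k with
  | zero => exact continuous_const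
  | succ k ih =>
    have h : (fun x : X => PP x (k + 1)) =
        (fun p : Bool × ℕ => if p.1 = true then k + 1 else p.2) ∘ (fun x => (bit x k, PP x k)) := rfl
    rw [h]
    exact continuous_of_discreteTopology.comp ((continuous_bit k).prodMk ih)

section
variable (k : ℕ) (t₀ : ℝ)

/-- The coefficient. -/
def cc (x : X) : ℕ := if PP x k < k then 2 ^ PP x k else 0

/-- The modulus. -/
def mm (x : X) : ℕ := if PP x k < k then 2 ^ k - 2 ^ PP x k + 1 else 2 ^ (k + 1)

/-- Half of the representative in `[t₀, t₀ + 1)`. -/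
noncomputable def hlf (s : T) : T := (((AddCircle.equivIco 1 t₀ s : ℝ) / 2 : ℝ) : T)

/-- The division. -/
noncomputable def hh (x : X) : T :=
  if PP x k < k then 0 else if bit x k = true then zz x (k + 1) else hlf t₀ (ss x)

theorem relation (x : X) : zz x 0 = mm k x • hh k t₀ x + cc k x • ss x := by
  obtain ⟨h1, h2, h3⟩ := PP_spec x k
  unfold mm hh cc
  split_ifs with hP hb
  · rw [smul_zero, zero_add, zz_pow x 0 (PP x k) (fun i hi => by rw [zero_add]; exact h1 i hi),
      zero_add, zz_ss x (h2 hP)]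
  · rw [zero_smul, add_zero, zz_pow x 0 (k + 1) (fun i hi => by
      rw [zero_add]; exact bit_mono x (by omega) hb), zero_add]
  · have hPk : PP x k = k := by omega
    rw [hPk] at h1
    rw [zero_smul, add_zero, zz_pow x 0 k (fun i hi => by rw [zero_add]; exact h1 i hi), zero_add,
      zz_ss x (by simpa using hb)]
    unfold hlf
    rw [← AddCircle.coe_nsmul]
    conv_lhs => rw [← AddCircle.coe_equivIco (p := (1 : ℝ)) (a := t₀) (y := ss x)]
    rw [← AddCircle.coe_nsmul]
    congr 1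
    rw [nsmul_eq_mul, nsmul_eq_mul, pow_succ]
    push_cast
    ring

theorem continuousAt_hh {x : X} (hx : x ≠ loop k t₀) : ContinuousAt (hh k t₀) x := by
  obtain ⟨h1, h2, h3⟩ := PP_spec x k
  have hPn : ∀ᶠ y in 𝓝 x, PP y k = PP x k :=
    (continuous_PP k).continuousAt.eventually
      ((isOpen_discrete ({PP x k} : Set ℕ)).mem_nhds rfl)
  have hbn : ∀ᶠ y in 𝓝 x, bit y k = bit x k :=
    (continuous_bit k).continuousAt.eventually
      ((isOpen_discrete ({bit x k} : Set Bool)).mem_nhds rfl)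
  by_cases hP : PP x k < k
  · have h4 : hh k t₀ =ᶠ[𝓝 x] fun _ => 0 := by
      filter_upwards [hPn] with y hy
      unfold hh
      rw [hy, if_pos hP]
    exact continuousAt_const.congr h4.symm
  · rcases hb : bit x k with _ | _
    · have h4 : hh k t₀ =ᶠ[𝓝 x] fun y => hlf t₀ (ss y) := by
        filter_upwards [hPn, hbn] with y hy hy'
        unfold hh
        rw [hy, if_neg hP, hy', hb, if_neg (by simp)]
      refine ContinuousAt.congr ?_ h4.symm
      have hs : ss x ≠ (t₀ : T) := by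
        intro hs
        apply hx
        have hPk : PP x k = k := by omega
        rw [hPk] at h1
        exact eq_loop x hb h1 hs.symm
      have h5 : ContinuousAt (hlf t₀) (ss x) := by
        unfold hlf
        refine (AddCircle.continuous_mk' (1 : ℝ)).continuousAt.comp ?_
        refine ContinuousAt.div_const ?_ 2
        exact continuous_subtype_val.continuousAt.comp (AddCircle.continuousAt_equivIco 1 t₀ hs)
      exact h5.comp continuous_ss.continuousAt
    · have h4 : hh k t₀ =ᶠ[𝓝 x] fun y => zz y (k + 1) := by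
        filter_upwards [hPn, hbn] with y hy hy'
        unfold hh
        rw [hy, if_neg hP, hy', hb, if_pos rfl]
      exact (continuous_zz (k + 1)).continuousAt.congr h4.symm

theorem mm_pos (x : X) : 0 < mm k x := by
  unfold mm
  split_ifs
  · omega
  · positivity

theorem mm_ne (x : X) : 2 ^ k % mm k x ≠ cc k x % mm k x := by
  unfold mm cc
  split_ifs with hP
  · intro h
    have h1 : 2 ^ PP x k < 2 ^ k := Nat.pow_lt_pow_right (by omega) hP
    have h2 : (2 ^ PP x k) ≡ 2 ^ k [MOD 2 ^ k - 2 ^ PP x k + 1] := h.symm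
    rw [Nat.modEq_iff_dvd' h1.le] at h2
    have h3 := Nat.le_of_dvd (by omega) h2
    omega
  · rw [Nat.mod_eq_of_lt (Nat.pow_lt_pow_right (by omega) (by omega))]
    simp

theorem mm_bound (x : X) : (mm k x : ℝ) + 1 + cc k x ≤ 2 ^ (k + 3) := by
  have h : mm k x + 1 + cc k x ≤ 2 ^ (k + 3) := by
    have h0 : 1 ≤ 2 ^ k := Nat.one_le_two_pow
    unfold mm cc
    rw [pow_succ 2 (k + 2), pow_succ 2 (k + 1), pow_succ 2 k]
    split_ifs with hP
    · have h1 : 2 ^ PP x k < 2 ^ k := Nat.pow_lt_pow_right (by omega) hP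
      omega
    · omega
  exact_mod_cast h

end

/-! ### Labels -/

/-- The label of a point. -/
noncomputable def lab (ee : ℤ) (g1 g2 : ℝ) (c a1 a2 : ℕ) : ℤ :=
  ee - round ((a1 : ℝ) / 8 - g1) + c * round ((a2 : ℝ) / 8 - g2)

theorem arith {c m a1 a2 a1' a2' : ℕ} {g1 g1' g2 g2' h h' η : ℝ} {ee ee' p1 p2 q : ℤ}
    (b1 : a1 ≤ 7) (b2 : a2 ≤ 7) (b1' : a1' ≤ 7) (b2' : a2' ≤ 7)
    (he : (ee : ℝ) = m * h - g1 + c * g2) (he' : (ee' : ℝ) = m * h' - g1' + c * g2')
    (hp1 : |g1' - g1 - p1| < η) (hp2 : |g2' - g2 - p2| < η) (hq : |h' - h - q| < η)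
    (hη : ((m : ℝ) + 1 + c) * η ≤ 1) (hη' : η ≤ 1 / 4)
    (n1 : |(a1 : ℝ) / 8 - g1 - round ((a1 : ℝ) / 8 - g1)| < 1 / 8)
    (n2 : |(a2 : ℝ) / 8 - g2 - round ((a2 : ℝ) / 8 - g2)| < 1 / 8)
    (n1' : |(a1' : ℝ) / 8 - g1' - round ((a1' : ℝ) / 8 - g1')| < 1 / 8)
    (n2' : |(a2' : ℝ) / 8 - g2' - round ((a2' : ℝ) / 8 - g2')| < 1 / 8) :
    (m : ℤ) ∣ (lab ee' g1' g2' c a1' a2' + tp a1 a1' + c * tp a2' a2) -
      (lab ee g1 g2 c a1 a2 + tp a1' a1 + c * tp a2 a2') := by
  have e1 := c0_eq b1 b1' (n := round ((a1' : ℝ) / 8 - g1') - round ((a1 : ℝ) / 8 - g1) + p1) (by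
    push_cast
    rw [abs_lt] at *
    constructor <;> linarith [n1.1, n1.2, n1'.1, n1'.2, hp1.1, hp1.2])
  have e2 := c0_eq b2 b2' (n := round ((a2' : ℝ) / 8 - g2') - round ((a2 : ℝ) / 8 - g2) + p2) (by
    push_cast
    rw [abs_lt] at *
    constructor <;> linarith [n2.1, n2.2, n2'.1, n2'.2, hp2.1, hp2.2])
  have e3 : ee' - ee = m * q - p1 + c * p2 := by
    have h1 : |((ee' - ee - (m * q - p1 + c * p2) : ℤ) : ℝ)| < 1 := by
      push_cast
      rw [he, he']
      have h2 : (m : ℝ) * h' - g1' + c * g2' - (m * h - g1 + c * g2) - (m * q - p1 + c * p2) =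
          m * (h' - h - q) - (g1' - g1 - p1) + c * (g2' - g2 - p2) := by ring
      rw [h2]
      have hm : (0 : ℝ) ≤ m := Nat.cast_nonneg m
      have hc : (0 : ℝ) ≤ c := Nat.cast_nonneg c
      rw [abs_lt] at hp1 hp2 hq
      have x1 : (m : ℝ) * (h' - h - q) ≤ m * η := mul_le_mul_of_nonneg_left hq.2.le hm
      have x2 : -((m : ℝ) * η) ≤ m * (h' - h - q) := by
        have := mul_le_mul_of_nonneg_left hq.1.le hm
        linarith
      have x3 : (c : ℝ) * (g2' - g2 - p2) ≤ c * η := mul_le_mul_of_nonneg_left hp2.2.le hc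
      have x4 : -((c : ℝ) * η) ≤ c * (g2' - g2 - p2) := by
        have := mul_le_mul_of_nonneg_left hp2.1.le hc
        linarith
      rw [abs_lt]
      constructor <;> nlinarith [hp1.1, hp1.2]
    have h3 : |ee' - ee - (m * q - p1 + c * p2)| < 1 := by exact_mod_cast h1
    rw [Int.abs_lt_one_iff] at h3
    linarith
  have e4 : (lab ee' g1' g2' c a1' a2' + tp a1 a1' + c * tp a2' a2) -
      (lab ee g1 g2 c a1 a2 + tp a1' a1 + c * tp a2 a2') = m * q := by
    unfold lab
    have e5 : ee' - round ((a1' : ℝ) / 8 - g1') + c * round ((a2' : ℝ) / 8 - g2') + tp a1 a1' +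
        c * tp a2' a2 - (ee - round ((a1 : ℝ) / 8 - g1) + c * round ((a2 : ℝ) / 8 - g2) +
        tp a1' a1 + c * tp a2 a2') = (ee' - ee) - (round ((a1' : ℝ) / 8 - g1') -
        round ((a1 : ℝ) / 8 - g1) + p1) + p1 + c * (round ((a2' : ℝ) / 8 - g2') -
        round ((a2 : ℝ) / 8 - g2) + p2) - c * p2 + (tp a1 a1' - tp a1' a1) -
        c * (tp a2 a2' - tp a2' a2) := by ring
    rw [e5, e1, e2, e3]
    ring
  rw [e4]
  exact dvd_mul_right _ _

theorem dist_coe {a b : ℝ} {η : ℝ} (h : dist (a : T) (b : T) < η) :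
    ∃ p : ℤ, |b - a - p| < η := by
  refine ⟨round (b - a), ?_⟩
  rw [← norm_coe, AddCircle.coe_sub, ← dist_eq_norm, dist_comm]
  exact h

theorem exists_ref (g : T) : ∃ a : ℕ, a ≤ 7 ∧ ‖g - ((a / 8 : ℝ) : T)‖ ≤ 1 / 16 := by
  obtain ⟨r, rfl⟩ := exists_lift g
  set n : ℤ := round (8 * r) with hn
  have h1 := abs_sub_round (8 * r)
  refine ⟨(n % 8).toNat, ?_, ?_⟩
  · have := Int.emod_lt_of_pos n (show (0 : ℤ) < 8 by norm_num)
    omega
  · have h2 : (((n % 8).toNat / 8 : ℝ) : T) = ((n / 8 : ℝ) : T) := by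
      rw [T_eq]
      refine ⟨-(n / 8), ?_⟩
      have h3 : ((n % 8).toNat : ℤ) = n % 8 := Int.toNat_of_nonneg (Int.emod_nonneg _ (by norm_num))
      have h4 : (((n % 8).toNat : ℤ) : ℝ) = ((n % 8 : ℤ) : ℝ) := by rw [h3]
      have h5 : ((n : ℤ) : ℝ) = ((8 * (n / 8) + n % 8 : ℤ) : ℝ) := by rw [Int.mul_ediv_add_emod]
      push_cast at h4 h5 ⊢
      rw [h4]
      linarith
    rw [h2, ← AddCircle.coe_sub, norm_coe]
    have h3 : |r - n / 8| ≤ 1 / 16 := by
      have : r - n / 8 = (8 * r - n) / 8 := by ring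
      rw [this, abs_div, abs_of_pos (by norm_num : (0 : ℝ) < 8)]
      rw [hn]
      linarith
    have h4 : round (r - (n : ℝ) / 8) = 0 := by
      rw [abs_le] at h3
      exact round_eq_zero_iff.2 ⟨by linarith [h3.1], by linarith [h3.2]⟩
    rw [h4]
    simpa using h3

variable {α : Type} [Primcodable α]

section
variable (E : EB α) {f : X → Cube} (hf : Continuous f) (hinj : Function.Injective f)
include hf hinj

/-- Existence of the advice. -/
theorem exists_adv : ∃ A : List (α × ℕ × ℕ), Adv E f A ∧ ∃ ε > 0, ∀ x : X, ∃ a ∈ A, ∀ u,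
    E.Sm ε u → f x ∈ E.S u → E.Inc u a.1 := by
  classical
  obtain ⟨ε1, hε1, h1⟩ := close hf hinj isCompact_univ (continuous_zz 0).continuousOn
    (η := 1 / 16) (by norm_num)
  obtain ⟨ε2, hε2, h2⟩ := close hf hinj isCompact_univ continuous_ss.continuousOn
    (η := 1 / 16) (by norm_num)
  choose v hv hv' using fun x : X => E.exists_sm (min ε1 ε2) (lt_min hε1 hε2) (f x)
  choose r1 hr1 hr1' using fun x : X => exists_ref (zz x 0)
  choose r2 hr2 hr2' using fun x : X => exists_ref (ss x)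
  choose ε3 hε3 h3 using fun x : X => E.sm_inc (v x) (f x) (hv x)
  have hopen : ∀ x : X, {y : X | dQ (f x) (f y) < ε3 x} ∈ 𝓝 x := fun x =>
    ((isOpen_dQ (f x) (ε3 x)).preimage hf).mem_nhds (by
      show dQ (f x) (f x) < ε3 x
      rw [dQ_self]
      exact hε3 x)
  obtain ⟨F, hF⟩ := CompactSpace.elim_nhds_subcover _ hopen
  have hFcov : ∀ x : X, ∃ y ∈ F, dQ (f y) (f x) < ε3 y := by
    intro x
    have : x ∈ (⊤ : Set X) := trivial
    rw [← hF] at this
    simp only [Set.mem_iUnion] at this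
    obtain ⟨y, hy, hy'⟩ := this
    exact ⟨y, hy, hy'⟩
  obtain ⟨x₀, hx₀, -⟩ := hFcov (loop 0 0)
  have hFne : F.Nonempty := ⟨x₀, hx₀⟩
  refine ⟨F.toList.map (fun x => (v x, r1 x, r2 x)), ?_, F.inf' hFne ε3, ?_, ?_⟩
  · intro a ha
    rw [List.mem_map] at ha
    obtain ⟨x, -, rfl⟩ := ha
    refine ⟨hr1 x, hr2 x, fun y hy => ?_⟩
    have hd : dQ (f x) (f y) < min ε1 ε2 := by
      apply E.sm_close _ (lt_min hε1 hε2) (v x) (v x) (hv' x) (hv' x) _ _ (hv x) _ hy
      intro hdis
      exact Set.disjoint_left.1 (E.dis _ _ hdis) (hv x) (hv x)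
    have e1 := h1 x trivial y trivial (lt_of_lt_of_le hd (min_le_left _ _))
    have e2 := h2 x trivial y trivial (lt_of_lt_of_le hd (min_le_right _ _))
    constructor
    · calc ‖zz y 0 - ((r1 x / 8 : ℝ) : T)‖ = ‖(zz y 0 - zz x 0) + (zz x 0 - ((r1 x / 8 : ℝ) : T))‖ := by
            congr 1; abel
        _ ≤ ‖zz y 0 - zz x 0‖ + ‖zz x 0 - ((r1 x / 8 : ℝ) : T)‖ := norm_add_le _ _
        _ < 1 / 16 + 1 / 16 := by
            rw [dist_eq_norm, norm_sub_rev] at e1
            exact add_lt_add_of_lt_of_le e1 (hr1' x)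
        _ = 1 / 8 := by norm_num
    · calc ‖ss y - ((r2 x / 8 : ℝ) : T)‖ = ‖(ss y - ss x) + (ss x - ((r2 x / 8 : ℝ) : T))‖ := by
            congr 1; abel
        _ ≤ ‖ss y - ss x‖ + ‖ss x - ((r2 x / 8 : ℝ) : T)‖ := norm_add_le _ _
        _ < 1 / 16 + 1 / 16 := by
            rw [dist_eq_norm, norm_sub_rev] at e2
            exact add_lt_add_of_lt_of_le e2 (hr2' x)
        _ = 1 / 8 := by norm_num
  · rw [gt_iff_lt, Finset.lt_inf'_iff]
    exact fun x _ => hε3 x
  · intro x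
    obtain ⟨y, hy, hyx⟩ := hFcov x
    refine ⟨(v y, r1 y, r2 y), List.mem_map.2 ⟨y, Finset.mem_toList.2 hy, rfl⟩, fun u hu hxu => ?_⟩
    exact h3 y (f x) u hyx (E.sm_mono _ _ _ (Finset.inf'_le _ hy) hu) hxu

/-- Completeness of certificates. -/
theorem complete {A : List (α × ℕ × ℕ)} (hA : Adv E f A) {ε₀ : ℝ} (hε₀ : 0 < ε₀)
    (hA' : ∀ x : X, ∃ a ∈ A, ∀ u, E.Sm ε₀ u → f x ∈ E.S u → E.Inc u a.1) {B : α} {x₁ : X}
    (hx₁ : f x₁ ∈ E.S B) : ∃ x : ℕ × List (Entry α), Ok E A x ∧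
      ∀ y : X, f y ∈ E.S B ∨ ∃ e ∈ x.2, f y ∈ E.S e.u := by
  classical
  obtain ⟨k, t₀, ht₀⟩ := loop_dense ((E.isOpen B).preimage hf) ⟨x₁, hx₁⟩
  set K : Set X := {x | f x ∉ E.S B} with hK
  have hKc : IsCompact K := by
    have : K = (f ⁻¹' E.S B)ᶜ := rfl
    rw [this]
    exact ((E.isOpen B).preimage hf).isClosed_compl.isCompact
  have hKne : ∀ x ∈ K, x ≠ loop k t₀ := by
    rintro x hx rfl
    exact hx ht₀
  set η : ℝ := 1 / 2 ^ (k + 3) with hη
  have hηpos : 0 < η := by positivity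
  have hη4 : η ≤ 1 / 4 := by
    rw [hη]
    apply one_div_le_one_div_of_le (by norm_num)
    have : (2 : ℝ) ^ (k + 3) = 8 * 2 ^ k := by ring
    rw [this]
    have : (1 : ℝ) ≤ 2 ^ k := one_le_pow₀ (by norm_num)
    linarith
  obtain ⟨ε1, hε1, h1⟩ := close hf hinj hKc (continuous_zz 0).continuousOn hηpos
  obtain ⟨ε2, hε2, h2⟩ := close hf hinj hKc continuous_ss.continuousOn hηpos
  obtain ⟨ε3, hε3, h3⟩ := close hf hinj hKc (φ := hh k t₀)
    (fun x hx => (continuousAt_hh k t₀ (hKne x hx)).continuousWithinAt) hηpos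
  obtain ⟨ε4, hε4, h4⟩ := close hf hinj hKc (continuous_PP k).continuousOn (η := 1) one_pos
  set ε : ℝ := min (min ε1 ε2) (min (min ε3 ε4) ε₀) with hε
  have hεpos : 0 < ε := lt_min (lt_min hε1 hε2) (lt_min (lt_min hε3 hε4) hε₀)
  have hεε₀ : ε ≤ ε₀ := (min_le_right _ _).trans (min_le_right _ _)
  choose u hu hu' using fun x : X => E.exists_sm ε hεpos (f x)
  choose a haA ha using hA'
  choose g1 hg1 using fun x : X => exists_lift (zz x 0)
  choose g2 hg2 using fun x : X => exists_lift (ss x)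
  choose h0 hh0 using fun x : X => exists_lift (hh k t₀ x)
  have hee : ∀ x : X, ∃ ee : ℤ, (ee : ℝ) = mm k x * h0 x - g1 x + cc k x * g2 x := by
    intro x
    have hr := relation k t₀ x
    rw [← hg1, ← hg2, ← hh0, ← AddCircle.coe_nsmul, ← AddCircle.coe_nsmul, ← AddCircle.coe_add,
      T_eq] at hr
    obtain ⟨n, hn⟩ := hr
    refine ⟨-n, ?_⟩
    rw [nsmul_eq_mul, nsmul_eq_mul] at hn
    push_cast
    linarith
  choose ee hee using hee
  set ent : X → Entry α := fun x => (u x, a x, (cc k x, mm k x,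
    ((lab (ee x) (g1 x) (g2 x) (cc k x) (a x).2.1 (a x).2.2) % mm k x).toNat)) with hent
  have hopen : ∀ x : X, f ⁻¹' E.S (u x) ∈ 𝓝 x := fun x =>
    ((E.isOpen _).preimage hf).mem_nhds (hu x)
  obtain ⟨F, hFK, hF⟩ := hKc.elim_nhds_subcover _ (fun x _ => hopen x)
  refine ⟨(k, F.toList.map ent), ⟨?_, ?_⟩, ?_⟩
  · intro e he
    rw [List.mem_map] at he
    obtain ⟨x, -, rfl⟩ := he
    exact ⟨haA x, ha x _ (E.sm_mono _ _ _ hεε₀ (hu' x)) (hu x), mm_pos k x, mm_ne k x⟩
  · intro e he e' he'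
    rw [List.mem_map] at he he'
    obtain ⟨x, hx, rfl⟩ := he
    obtain ⟨x', hx', rfl⟩ := he'
    have hxK := hFK x (Finset.mem_toList.1 hx)
    have hxK' := hFK x' (Finset.mem_toList.1 hx')
    by_cases hd : E.Dis (u x) (u x')
    · exact Or.inl hd
    · right
      have hdist := E.sm_close ε hεpos _ _ (hu' x) (hu' x') hd _ (hu x) _ (hu x')
      have d1 := h1 x hxK x' hxK' (lt_of_lt_of_le hdist ((min_le_left _ _).trans (min_le_left _ _)))
      have d2 := h2 x hxK x' hxK' (lt_of_lt_of_le hdist ((min_le_left _ _).trans (min_le_right _ _)))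
      have d3 := h3 x hxK x' hxK' (lt_of_lt_of_le hdist
        ((min_le_right _ _).trans ((min_le_left _ _).trans (min_le_left _ _))))
      have d4 := h4 x hxK x' hxK' (lt_of_lt_of_le hdist
        ((min_le_right _ _).trans ((min_le_left _ _).trans (min_le_right _ _))))
      have hPeq : PP x k = PP x' k := by
        rw [Nat.dist_eq] at d4
        have : |((PP x k : ℤ) - PP x' k : ℤ)| < 1 := by exact_mod_cast d4
        rw [Int.abs_lt_one_iff] at this
        omega
      have hc : cc k x = cc k x' := by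
        unfold cc
        rw [hPeq]
      have hm : mm k x = mm k x' := by
        unfold mm
        rw [hPeq]
      rw [← hg1 x, ← hg1 x'] at d1
      rw [← hg2 x, ← hg2 x'] at d2
      rw [← hh0 x, ← hh0 x'] at d3
      obtain ⟨p1, hp1⟩ := dist_coe d1
      obtain ⟨p2, hp2⟩ := dist_coe d2
      obtain ⟨q, hq⟩ := dist_coe d3
      have hnear : ∀ y : X, |((a y).2.1 : ℝ) / 8 - g1 y - round (((a y).2.1 : ℝ) / 8 - g1 y)| < 1 / 8
          ∧ |((a y).2.2 : ℝ) / 8 - g2 y - round (((a y).2.2 : ℝ) / 8 - g2 y)| < 1 / 8 := by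
        intro y
        obtain ⟨-, -, h5⟩ := hA _ (haA y)
        obtain ⟨h6, h7⟩ := h5 y (E.inc _ _ (ha y _ (E.sm_mono _ _ _ hεε₀ (hu' y)) (hu y)) (hu y))
        constructor
        · rw [← norm_coe, AddCircle.coe_sub, hg1, norm_sub_rev]
          exact h6
        · rw [← norm_coe, AddCircle.coe_sub, hg2, norm_sub_rev]
          exact h7
      obtain ⟨b1, b2, -⟩ := hA _ (haA x)
      obtain ⟨b1', b2', -⟩ := hA _ (haA x')
      have hη1 : ((mm k x : ℝ) + 1 + cc k x) * η ≤ 1 := by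
        rw [hη]
        rw [mul_one_div, div_le_one (by positivity)]
        exact mm_bound k x
      have he' := hee x'
      rw [← hc, ← hm] at he'
      have key := arith b1 b2 b1' b2' (hee x) he' hp1 hp2 hq hη1 hη4 (hnear x).1 (hnear x).2
        (hnear x').1 (hnear x').2
      refine ⟨hc, hm, ?_⟩
      have hmpos : (0 : ℤ) < mm k x := by exact_mod_cast mm_pos k x
      set N := lab (ee x) (g1 x) (g2 x) (cc k x) (a x).2.1 (a x).2.2 with hN
      set N' := lab (ee x') (g1 x') (g2 x') (cc k x) (a x').2.1 (a x').2.2 with hN'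
      have hb1 : ((N % mm k x).toNat : ℤ) = N % mm k x :=
        Int.toNat_of_nonneg (Int.emod_nonneg _ hmpos.ne')
      have hb2 : ((N' % mm k x).toNat : ℤ) = N' % mm k x :=
        Int.toNat_of_nonneg (Int.emod_nonneg _ hmpos.ne')
      have goal' : ((N % mm k x).toNat + tp (a x').2.1 (a x).2.1 + cc k x * tp (a x).2.2 (a x').2.2)
          ≡ ((N' % mm k x).toNat + tp (a x).2.1 (a x').2.1 + cc k x * tp (a x').2.2 (a x).2.2)
          [MOD mm k x] := by
        rw [Nat.modEq_iff_dvd]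
        push_cast
        rw [hb1, hb2]
        have e1 : (mm k x : ℤ) ∣ N' % mm k x - N' := by
          rw [← dvd_neg, neg_sub]
          exact Int.dvd_self_sub_emod
        have e2 : (mm k x : ℤ) ∣ N % mm k x - N := by
          rw [← dvd_neg, neg_sub]
          exact Int.dvd_self_sub_emod
        obtain ⟨w1, hw1⟩ := key
        obtain ⟨w2, hw2⟩ := e1
        obtain ⟨w3, hw3⟩ := e2
        refine ⟨w1 + w2 - w3, ?_⟩
        rw [mul_sub, mul_add, ← hw1, ← hw2, ← hw3]
        ring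
      show ((lab (ee x') (g1 x') (g2 x') (cc k x') (a x').2.1 (a x').2.2 % mm k x').toNat +
          tp (a x).2.1 (a x').2.1 + cc k x * tp (a x').2.2 (a x).2.2) % mm k x =
        ((N % mm k x).toNat + tp (a x').2.1 (a x).2.1 + cc k x * tp (a x).2.2 (a x').2.2) % mm k x
      rw [← hc, ← hm]
      exact goal'.symm
  · intro y
    by_cases hy : f y ∈ E.S B
    · exact Or.inl hy
    · right
      have hyK : y ∈ K := hy
      have := hF hyK
      simp only [Set.mem_iUnion] at this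
      obtain ⟨x, hx, hxy⟩ := this
      exact ⟨ent x, List.mem_map.2 ⟨x, Finset.mem_toList.2 hx, rfl⟩, hxy⟩

end

end Q204.TY
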