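import Pool.Agent.Q204.TY.Top
import Pool.Agent.Q204.TY.Ball

set_option autoImplicit false

/-!
# Dimension and self-embedding
-/

namespace Q204.TY

open TopologicalSpace

/-- `X` has covering dimension at most `d`: every finite open cover has a finite open refinement
which covers `X` and in which every point lies in at most `d + 1` members. -/
def CoveringDimLE (X : Type) [TopologicalSpace X] (d : ℕ) : Prop :=
  ∀ U : Set (Set X), U.Finite → (∀ u ∈ U, IsOpen u) → ⋃₀ U = Set.univ →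
    ∃ V : Set (Set X), V.Finite ∧ (∀ v ∈ V, IsOpen v) ∧ ⋃₀ V = Set.univ ∧
      (∀ v ∈ V, ∃ u ∈ U, v ⊆ u) ∧ ∀ x, {v ∈ V | x ∈ v}.encard ≤ d + 1

/-- Arcs of the circle. -/
theorem exists_arc {M : ℕ} (hM : 0 < M) (t : T) : ∃ a b : ℕ, a < M ∧
    ‖t - ((a / M : ℝ) : T)‖ < 1 / M ∧
    ∀ i < M, ‖t - ((i / M : ℝ) : T)‖ < 1 / M → i = a ∨ i = b := by
  obtain ⟨r, rfl⟩ := exists_lift t
  have hM' : (0 : ℝ) < M := by exact_mod_cast hM
  have hMz : (0 : ℤ) < M := by exact_mod_cast hM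
  have hcast : ∀ k : ℤ, (((k % M).toNat : ℕ) : ℤ) = k % M := fun k =>
    Int.toNat_of_nonneg (Int.emod_nonneg _ hMz.ne')
  refine ⟨(⌊r * M⌋ % M).toNat, ((⌊r * M⌋ + 1) % M).toNat, ?_, ?_, ?_⟩
  · have := Int.emod_lt_of_pos ⌊r * M⌋ hMz
    omega
  · rw [← AddCircle.coe_sub, norm_coe]
    have h1 := round_le (r - (((⌊r * M⌋ % M).toNat : ℕ) : ℝ) / M) (⌊r * M⌋ / M)
    refine lt_of_le_of_lt h1 ?_
    have h2 : (((⌊r * M⌋ % M).toNat : ℕ) : ℝ) = (⌊r * M⌋ : ℝ) - M * ((⌊r * M⌋ / M : ℤ) : ℝ) := by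
      have h3 : (((⌊r * M⌋ % M).toNat : ℕ) : ℤ) = ⌊r * M⌋ - M * (⌊r * M⌋ / M) := by
        rw [hcast, Int.emod_def]
      exact_mod_cast h3
    rw [h2]
    have h4 : r - (⌊r * M⌋ - M * ((⌊r * M⌋ / M : ℤ) : ℝ)) / M - ((⌊r * M⌋ / M : ℤ) : ℝ) =
        (r * M - ⌊r * M⌋) / M := by
      field_simp
      ring
    rw [h4, abs_div, abs_of_pos hM', div_lt_div_iff_of_pos_right hM']
    have h5 := Int.floor_le (r * M)
    have h6 := Int.lt_floor_add_one (r * M)
    rw [abs_lt]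
    constructor <;> linarith
  · intro i hi h
    rw [← AddCircle.coe_sub, norm_coe] at h
    set n := round (r - (i : ℝ) / M) with hn
    have h1 : |r * M - ((i + n * M : ℤ) : ℝ)| < 1 := by
      have h2 : r * M - ((i + n * M : ℤ) : ℝ) = (r - (i : ℝ) / M - n) * M := by
        push_cast
        field_simp
        ring
      rw [h2, abs_mul, abs_of_pos hM']
      calc |r - (i : ℝ) / M - n| * M < 1 / M * M := mul_lt_mul_of_pos_right h hM'
        _ = 1 := by field_simp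
    rw [abs_lt] at h1
    have h5 := Int.floor_le (r * M)
    have h6 := Int.lt_floor_add_one (r * M)
    have h7 : (⌊r * M⌋ : ℝ) < ((i + n * M : ℤ) : ℝ) + 1 := by linarith
    have h8 : ((i + n * M : ℤ) : ℝ) < ⌊r * M⌋ + 2 := by linarith
    have h7' : ⌊r * M⌋ < (i + n * M : ℤ) + 1 := by exact_mod_cast h7
    have h8' : (i + n * M : ℤ) < ⌊r * M⌋ + 2 := by exact_mod_cast h8
    have h9 : (i : ℤ) = (i + n * M) % M := by
      rw [Int.add_mul_emod_self_right, Int.emod_eq_of_lt (by omega) (by exact_mod_cast hi)]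
    have h10 : (i + n * M : ℤ) = ⌊r * M⌋ ∨ (i + n * M : ℤ) = ⌊r * M⌋ + 1 := by omega
    rcases h10 with h10 | h10
    · left
      rw [h10] at h9
      omega
    · right
      rw [h10] at h9
      omega

/-- The cells. -/
def cell (N : ℕ) (c : (Fin N → Bool) × ℕ × ℕ) : Set X :=
  {x | (∀ n : Fin N, bit x n = c.1 n) ∧ ‖zz x N - ((c.2.1 / (4 ^ N : ℕ) : ℝ) : T)‖ < 1 / (4 ^ N : ℕ) ∧
    ‖ss x - ((c.2.2 / (4 ^ N : ℕ) : ℝ) : T)‖ < 1 / (4 ^ N : ℕ)}

theorem isOpen_cell (N : ℕ) (c : (Fin N → Bool) × ℕ × ℕ) : IsOpen (cell N c) := by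
  have h1 : IsOpen {x : X | ∀ n : Fin N, bit x n = c.1 n} := by
    have : {x : X | ∀ n : Fin N, bit x n = c.1 n} = ⋂ n : Fin N, {x : X | bit x n = c.1 n} := by
      ext x; simp
    rw [this]
    exact isOpen_iInter_of_finite fun n => (isOpen_discrete {c.1 n}).preimage (continuous_bit n)
  have h2 : IsOpen {x : X | ‖zz x N - ((c.2.1 / (4 ^ N : ℕ) : ℝ) : T)‖ < 1 / (4 ^ N : ℕ)} :=
    isOpen_lt ((continuous_zz N).sub continuous_const).norm continuous_const
  have h3 : IsOpen {x : X | ‖ss x - ((c.2.2 / (4 ^ N : ℕ) : ℝ) : T)‖ < 1 / (4 ^ N : ℕ)} :=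
    isOpen_lt (continuous_ss.sub continuous_const).norm continuous_const
  exact h1.inter (h2.inter h3)

theorem norm_nsmul_le' (n : ℕ) (t : T) : ‖n • t‖ ≤ n * ‖t‖ := norm_nsmul_le

theorem cell_close {N : ℕ} {c : (Fin N → Bool) × ℕ × ℕ} {x y : X} (hx : x ∈ cell N c)
    (hy : y ∈ cell N c) : (∀ n < N, bit x n = bit y n) ∧
    (∀ n ≤ N, ‖zz x n - zz y n‖ ≤ 2 * (1 / 2) ^ N) ∧ ‖ss x - ss y‖ ≤ 2 * (1 / 2) ^ N := by
  obtain ⟨h1, h2, h3⟩ := hx
  obtain ⟨h1', h2', h3'⟩ := hy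
  have hb : ∀ n < N, bit x n = bit y n := fun n hn => (h1 ⟨n, hn⟩).trans (h1' ⟨n, hn⟩).symm
  have h4 : (0 : ℝ) < (4 ^ N : ℕ) := by positivity
  have hz : ‖zz x N - zz y N‖ ≤ 2 / (4 ^ N : ℕ) := by
    calc ‖zz x N - zz y N‖ = ‖(zz x N - ((c.2.1 / (4 ^ N : ℕ) : ℝ) : T)) -
          (zz y N - ((c.2.1 / (4 ^ N : ℕ) : ℝ) : T))‖ := by congr 1; abel
      _ ≤ _ := norm_sub_le _ _
      _ ≤ 1 / (4 ^ N : ℕ) + 1 / (4 ^ N : ℕ) := add_le_add h2.le h2'.le
      _ = _ := by ring
  have hs : ‖ss x - ss y‖ ≤ 2 / (4 ^ N : ℕ) := by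
    calc ‖ss x - ss y‖ = ‖(ss x - ((c.2.2 / (4 ^ N : ℕ) : ℝ) : T)) -
          (ss y - ((c.2.2 / (4 ^ N : ℕ) : ℝ) : T))‖ := by congr 1; abel
      _ ≤ _ := norm_sub_le _ _
      _ ≤ 1 / (4 ^ N : ℕ) + 1 / (4 ^ N : ℕ) := add_le_add h3.le h3'.le
      _ = _ := by ring
  have hbound : ∀ k ≤ N, (2 : ℝ) ^ k * (2 / (4 ^ N : ℕ)) ≤ 2 * (1 / 2) ^ N := by
    intro k hk
    have e1 : (2 : ℝ) ^ k ≤ 2 ^ N := pow_le_pow_right₀ (by norm_num) hk
    have e2 : ((4 ^ N : ℕ) : ℝ) = 2 ^ N * 2 ^ N := by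
      push_cast
      rw [← mul_pow]
      norm_num
    have e3 : (2 : ℝ) * (1 / 2) ^ N = 2 ^ N * (2 / (4 ^ N : ℕ)) := by
      rw [e2, one_div, inv_pow]
      field_simp
    rw [e3]
    exact mul_le_mul_of_nonneg_right e1 (by positivity)
  refine ⟨hb, fun n hn => ?_, ?_⟩
  · -- all coordinates up to `N`
    have key : ∀ k, k ≤ N → (∃ j ≤ k, ∃ w, (w = zz x N - zz y N ∨ w = ss x - ss y) ∧
        zz x (N - k) - zz y (N - k) = 2 ^ j • w) := by
      intro k
      induction k with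
      | zero => exact fun _ => ⟨0, le_rfl, _, Or.inl rfl, by simp⟩
      | succ k ih =>
        intro hk
        have hlt : N - (k + 1) < N := by omega
        have hbb := hb _ hlt
        rcases hbx : bit x (N - (k + 1)) with _ | _
        · refine ⟨0, Nat.zero_le _, ss x - ss y, Or.inr rfl, ?_⟩
          rw [zz_ss x hbx, zz_ss y (hbb ▸ hbx)]
          simp
        · obtain ⟨j, hj, w, hw, h⟩ := ih (by omega)
          refine ⟨j + 1, by omega, w, hw, ?_⟩
          rw [zz_double x hbx, zz_double y (hbb ▸ hbx)]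
          have e : N - (k + 1) + 1 = N - k := by omega
          rw [e, ← nsmul_sub, h, ← mul_nsmul, pow_succ]
    obtain ⟨j, hj, w, hw, h⟩ := key (N - n) (by omega)
    have e : N - (N - n) = n := by omega
    rw [e] at h
    rw [h]
    have hwb : ‖w‖ ≤ 2 / (4 ^ N : ℕ) := by
      rcases hw with rfl | rfl
      · exact hz
      · exact hs
    calc ‖2 ^ j • w‖ ≤ ((2 ^ j : ℕ) : ℝ) * ‖w‖ := norm_nsmul_le' _ _
      _ ≤ ((2 ^ j : ℕ) : ℝ) * (2 / (4 ^ N : ℕ)) := mul_le_mul_of_nonneg_left hwb (by positivity)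
      _ = (2 : ℝ) ^ j * (2 / (4 ^ N : ℕ)) := by push_cast; rfl
      _ ≤ _ := hbound j (by omega)
  · calc ‖ss x - ss y‖ ≤ 2 / (4 ^ N : ℕ) := hs
      _ = (2 : ℝ) ^ 0 * (2 / (4 ^ N : ℕ)) := by simp
      _ ≤ _ := hbound 0 (Nat.zero_le _)

/-- Small cells have small diameter. -/
theorem exists_small {δ : ℝ} (hδ : 0 < δ) : letI := metrizableSpaceMetric X
    ∃ N : ℕ, ∀ c, ∀ x ∈ cell N c, ∀ y ∈ cell N c, dist x y < δ := by
  letI := metrizableSpaceMetric X
  set K : ℕ → Set (X × X) := fun N => {p | δ ≤ dist p.1 p.2 ∧ (∀ n < N, bit p.1 n = bit p.2 n) ∧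
    (∀ n ≤ N, ‖zz p.1 n - zz p.2 n‖ ≤ 2 * (1 / 2) ^ N) ∧ ‖ss p.1 - ss p.2‖ ≤ 2 * (1 / 2) ^ N} with hK
  have hKc : ∀ N, IsClosed (K N) := by
    intro N
    have c1 : IsClosed {p : X × X | δ ≤ dist p.1 p.2} := isClosed_le continuous_const continuous_dist
    have c2 : IsClosed {p : X × X | ∀ n < N, bit p.1 n = bit p.2 n} := by
      have : {p : X × X | ∀ n < N, bit p.1 n = bit p.2 n} =
          ⋂ n, ⋂ (_ : n < N), {p : X × X | bit p.1 n = bit p.2 n} := by
        ext p; simp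
      rw [this]
      exact isClosed_iInter fun n => isClosed_iInter fun _ =>
        isClosed_eq ((continuous_bit n).comp continuous_fst) ((continuous_bit n).comp continuous_snd)
    have c3 : IsClosed {p : X × X | ∀ n ≤ N, ‖zz p.1 n - zz p.2 n‖ ≤ 2 * (1 / 2) ^ N} := by
      have : {p : X × X | ∀ n ≤ N, ‖zz p.1 n - zz p.2 n‖ ≤ 2 * (1 / 2) ^ N} =
          ⋂ n, ⋂ (_ : n ≤ N), {p : X × X | ‖zz p.1 n - zz p.2 n‖ ≤ 2 * (1 / 2) ^ N} := by
        ext p; simp
      rw [this]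
      exact isClosed_iInter fun n => isClosed_iInter fun _ =>
        isClosed_le (((continuous_zz n).comp continuous_fst).sub
          ((continuous_zz n).comp continuous_snd)).norm continuous_const
    have c4 : IsClosed {p : X × X | ‖ss p.1 - ss p.2‖ ≤ 2 * (1 / 2) ^ N} :=
      isClosed_le ((continuous_ss.comp continuous_fst).sub
        (continuous_ss.comp continuous_snd)).norm continuous_const
    exact c1.inter (c2.inter (c3.inter c4))
  have hmono : ∀ N, K (N + 1) ⊆ K N := by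
    rintro N p ⟨h1, h2, h3, h4⟩
    have h5 : (2 : ℝ) * (1 / 2) ^ (N + 1) ≤ 2 * (1 / 2) ^ N := by
      have : (1 / 2 : ℝ) ^ (N + 1) ≤ (1 / 2) ^ N :=
        pow_le_pow_of_le_one (by norm_num) (by norm_num) (Nat.le_succ N)
      linarith
    exact ⟨h1, fun n hn => h2 n (by omega), fun n hn => (h3 n (by omega)).trans h5, h4.trans h5⟩
  have hex : ∃ N, K N = ∅ := by
    by_contra hcon
    push Not at hcon
    obtain ⟨p, hp⟩ := IsCompact.nonempty_iInter_of_sequence_nonempty_isCompact_isClosed K hmono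
      hcon (hKc 0).isCompact hKc
    rw [Set.mem_iInter] at hp
    have hlim : Filter.Tendsto (fun N : ℕ => (2 : ℝ) * (1 / 2) ^ N) Filter.atTop (nhds 0) := by
      have := (tendsto_pow_atTop_nhds_zero_of_lt_one (r := (1 / 2 : ℝ)) (by norm_num)
        (by norm_num)).const_mul 2
      simpa using this
    have heq : p.1 = p.2 := by
      apply X.ext'
      · exact fun n => (hp (n + 1)).2.1 n (Nat.lt_succ_self n)
      · intro n
        have h1 : ‖zz p.1 n - zz p.2 n‖ ≤ 0 := by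
          apply ge_of_tendsto hlim
          filter_upwards [Filter.eventually_ge_atTop n] with N hN
          exact (hp N).2.2.1 n hN
        exact sub_eq_zero.1 (norm_eq_zero.1 (le_antisymm h1 (norm_nonneg _)))
      · have h1 : ‖ss p.1 - ss p.2‖ ≤ 0 := by
          apply ge_of_tendsto hlim
          filter_upwards with N
          exact (hp N).2.2.2
        exact sub_eq_zero.1 (norm_eq_zero.1 (le_antisymm h1 (norm_nonneg _)))
    have h2 := (hp 0).1
    rw [heq, dist_self] at h2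
    linarith
  obtain ⟨N, hN⟩ := hex
  refine ⟨N, fun c x hx y hy => ?_⟩
  by_contra hcon
  obtain ⟨h1, h2, h3⟩ := cell_close hx hy
  have : (x, y) ∈ K N := ⟨not_lt.1 hcon, h1, h2, h3⟩
  rw [hN] at this
  exact this

theorem dim_le : CoveringDimLE X 3 := by
  intro U _ hUo hUc
  letI := metrizableSpaceMetric X
  obtain ⟨δ, hδ, hleb⟩ := lebesgue_number_lemma_of_metric_sUnion (s := Set.univ) (c := U)
    isCompact_univ hUo (by rw [hUc])
  obtain ⟨N, hN⟩ := exists_small hδ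
  have hMpos : 0 < 4 ^ N := by positivity
  obtain ⟨u₀, hu₀, -⟩ := hleb (loop 0 0) trivial
  refine ⟨cell N '' {c | c.2.1 < 4 ^ N ∧ c.2.2 < 4 ^ N}, ?_, ?_, ?_, ?_, ?_⟩
  · apply Set.Finite.image
    have : Set.Finite ((Set.univ : Set (Fin N → Bool)) ×ˢ (Set.Iio (4 ^ N) ×ˢ Set.Iio (4 ^ N))) :=
      Set.finite_univ.prod ((Set.finite_Iio _).prod (Set.finite_Iio _))
    refine this.subset ?_
    rintro ⟨p, i, j⟩ ⟨h1, h2⟩
    exact ⟨trivial, h1, h2⟩
  · rintro _ ⟨c, -, rfl⟩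
    exact isOpen_cell N c
  · rw [Set.eq_univ_iff_forall]
    intro x
    obtain ⟨a, -, ha, ha', -⟩ := exists_arc hMpos (zz x N)
    obtain ⟨b, -, hb, hb', -⟩ := exists_arc hMpos (ss x)
    exact ⟨cell N (fun n => bit x n, a, b), ⟨_, ⟨ha, hb⟩, rfl⟩, fun n => rfl, ha', hb'⟩
  · rintro _ ⟨c, -, rfl⟩
    rcases (cell N c).eq_empty_or_nonempty with he | ⟨x, hx⟩
    · exact ⟨u₀, hu₀, by rw [he]; exact Set.empty_subset _⟩
    · obtain ⟨u, hu, hxu⟩ := hleb x trivial
      refine ⟨u, hu, fun y hy => hxu ?_⟩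
      rw [Metric.mem_ball]
      exact hN c y hy x hx
  · intro x
    obtain ⟨a, a', -, -, ha⟩ := exists_arc hMpos (zz x N)
    obtain ⟨b, b', -, -, hb⟩ := exists_arc hMpos (ss x)
    have hsub : {v ∈ cell N '' {c | c.2.1 < 4 ^ N ∧ c.2.2 < 4 ^ N} | x ∈ v} ⊆
        {cell N (fun n => bit x n, a, b), cell N (fun n => bit x n, a, b'),
          cell N (fun n => bit x n, a', b), cell N (fun n => bit x n, a', b')} := by
      rintro _ ⟨⟨⟨p, i, j⟩, ⟨hi, hj⟩, rfl⟩, h1, h2, h3⟩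
      have hp : p = fun n : Fin N => bit x n := funext fun n => (h1 n).symm
      subst hp
      rcases ha i hi h2 with rfl | rfl
      · rcases hb j hj h3 with rfl | rfl
        · simp
        · simp
      · rcases hb j hj h3 with rfl | rfl
        · simp
        · simp
    refine (Set.encard_le_encard hsub).trans ?_
    refine (Set.encard_insert_le _ _).trans ?_
    refine (add_le_add_left (Set.encard_insert_le _ _) _).trans ?_
    refine (add_le_add_left (add_le_add_left (Set.encard_insert_le _ _) _) _).trans ?_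
    rw [Set.encard_singleton]
    norm_num

/-- The self-embedding. -/
def shift (x : X) : X :=
  ⟨(fun n => Nat.casesOn n true (bit x), fun n => Nat.casesOn n (zz x 0 + zz x 0) (zz x), ss x), by
    intro n
    cases n with
    | zero =>
      refine ⟨fun _ => rfl, fun _ => rfl, fun h => ?_⟩
      exact absurd h (by simp)
    | succ n => exact ⟨(x.2 n).1, (x.2 n).2.1, (x.2 n).2.2⟩⟩

theorem shift_injective : Function.Injective shift := by
  intro x y h
  apply X.ext'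
  · intro n
    exact congrArg (fun z => bit z (n + 1)) h
  · intro n
    exact congrArg (fun z => zz z (n + 1)) h
  · have h1 : ss (shift x) = ss (shift y) := congrArg ss h
    exact h1

theorem continuous_shift : Continuous shift := by
  apply Continuous.subtype_mk
  refine Continuous.prodMk ?_ (Continuous.prodMk ?_ continuous_ss)
  · refine continuous_pi fun n => ?_
    cases n with
    | zero => exact continuous_const
    | succ n => exact continuous_bit n
  · refine continuous_pi fun n => ?_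
    cases n with
    | zero => exact (continuous_zz 0).add (continuous_zz 0)
    | succ n => exact continuous_zz n

theorem proper_copy : ∃ X' : Set X, X' ≠ Set.univ ∧ Nonempty (X ≃ₜ X') := by
  refine ⟨Set.range shift, fun h => ?_, ?_⟩
  · have : loop 0 0 ∈ Set.range shift := by rw [h]; trivial
    obtain ⟨x, hx⟩ := this
    have h1 : bit (shift x) 0 = true := rfl
    rw [hx, bit_loop] at h1
    simp at h1
  · exact ⟨(continuous_shift.isClosedEmbedding shift_injective).isEmbedding.toHomeomorph⟩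

end Q204.TY
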