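import Pool.Agent.Q204.TY.Space

set_option autoImplicit false

/-!
# The metric of the Hilbert cube, effective bases
-/

namespace Q204.TY

/-- The Hilbert cube `[0,1]^ℕ`. -/
abbrev Cube : Type := ℕ → unitInterval

/-- The metric `d(x,y) = ∑ 2^(-n) |x_n - y_n|`. -/
noncomputable def dQ (x y : Cube) : ℝ := ∑' n, (1 / 2 : ℝ) ^ n * |(x n : ℝ) - y n|

theorem abs_sub_le_one (a b : unitInterval) : |(a : ℝ) - b| ≤ 1 := by
  have h1 := a.2.1
  have h2 := a.2.2
  have h3 := b.2.1
  have h4 := b.2.2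
  rw [abs_le]
  constructor <;> linarith

theorem summable_dQ (x y : Cube) : Summable (fun n => (1 / 2 : ℝ) ^ n * |(x n : ℝ) - y n|) := by
  refine Summable.of_nonneg_of_le (fun n => by positivity) (fun n => ?_)
    (summable_geometric_of_lt_one (r := (1 / 2 : ℝ)) (by norm_num) (by norm_num))
  calc (1 / 2 : ℝ) ^ n * |(x n : ℝ) - y n| ≤ (1 / 2 : ℝ) ^ n * 1 :=
        mul_le_mul_of_nonneg_left (abs_sub_le_one _ _) (by positivity)
    _ = (1 / 2 : ℝ) ^ n := mul_one _

theorem dQ_nonneg (x y : Cube) : 0 ≤ dQ x y := tsum_nonneg fun n => by positivity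

theorem dQ_self (x : Cube) : dQ x x = 0 := by
  unfold dQ
  simp

theorem dQ_comm (x y : Cube) : dQ x y = dQ y x := by
  unfold dQ
  congr 1
  funext n
  rw [abs_sub_comm]

theorem dQ_triangle (x y z : Cube) : dQ x z ≤ dQ x y + dQ y z := by
  unfold dQ
  rw [← (summable_dQ x y).tsum_add (summable_dQ y z)]
  refine (summable_dQ x z).tsum_le_tsum (fun n => ?_) ((summable_dQ x y).add (summable_dQ y z))
  rw [← mul_add]
  exact mul_le_mul_of_nonneg_left (abs_sub_le _ _ _) (by positivity)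

theorem term_le_dQ (x y : Cube) (n : ℕ) : (1 / 2 : ℝ) ^ n * |(x n : ℝ) - y n| ≤ dQ x y :=
  (summable_dQ x y).le_tsum n fun _ _ => by positivity

theorem coord_le (x y : Cube) (n : ℕ) : |(x n : ℝ) - y n| ≤ 2 ^ n * dQ x y := by
  have h := term_le_dQ x y n
  have h2 : (0 : ℝ) < 2 ^ n := by positivity
  calc |(x n : ℝ) - y n| = 2 ^ n * ((1 / 2 : ℝ) ^ n * |(x n : ℝ) - y n|) := by
        rw [← mul_assoc, ← mul_pow]
        norm_num
    _ ≤ 2 ^ n * dQ x y := mul_le_mul_of_nonneg_left h h2.le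

theorem eq_of_dQ {x y : Cube} (h : dQ x y = 0) : x = y := by
  funext n
  have h1 := coord_le x y n
  rw [h, mul_zero] at h1
  have h2 := abs_nonneg ((x n : ℝ) - y n)
  have h3 : (x n : ℝ) - y n = 0 := abs_eq_zero.1 (le_antisymm h1 h2)
  exact Subtype.ext (by linarith)

theorem dQ_pos {x y : Cube} (h : x ≠ y) : 0 < dQ x y :=
  lt_of_le_of_ne (dQ_nonneg x y) fun h' => h (eq_of_dQ h'.symm)

theorem continuous_dQ : Continuous (fun p : Cube × Cube => dQ p.1 p.2) := by
  unfold dQ
  refine continuous_tsum (u := fun n => (1 / 2 : ℝ) ^ n) (fun n => ?_)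
    (summable_geometric_of_lt_one (by norm_num) (by norm_num)) (fun n p => ?_)
  · refine continuous_const.mul (Continuous.abs (Continuous.sub ?_ ?_))
    · exact continuous_subtype_val.comp ((continuous_apply n).comp continuous_fst)
    · exact continuous_subtype_val.comp ((continuous_apply n).comp continuous_snd)
  · rw [Real.norm_eq_abs, abs_mul, abs_abs, abs_of_pos (by positivity : (0 : ℝ) < (1 / 2) ^ n)]
    calc (1 / 2 : ℝ) ^ n * |(p.1 n : ℝ) - p.2 n| ≤ (1 / 2 : ℝ) ^ n * 1 :=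
          mul_le_mul_of_nonneg_left (abs_sub_le_one _ _) (by positivity)
      _ = (1 / 2 : ℝ) ^ n := mul_one _

theorem isOpen_dQ (x : Cube) (r : ℝ) : IsOpen {y | dQ x y < r} :=
  isOpen_lt (continuous_dQ.comp (continuous_const.prodMk continuous_id)) continuous_const

/-- Uniform continuity of functions on `K` with respect to the metric of the cube. -/
theorem close {Z : Type} [PseudoMetricSpace Z] {f : X → Cube} (hf : Continuous f)
    (hinj : Function.Injective f) {K : Set X} (hK : IsCompact K) {φ : X → Z}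
    (hφ : ContinuousOn φ K) {η : ℝ} (hη : 0 < η) :
    ∃ ε > 0, ∀ x ∈ K, ∀ y ∈ K, dQ (f x) (f y) < ε → dist (φ x) (φ y) < η := by
  set M : Set (X × X) := (K ×ˢ K) ∩ (fun p => dist (φ p.1) (φ p.2)) ⁻¹' Set.Ici η with hM
  have hcont : ContinuousOn (fun p : X × X => dist (φ p.1) (φ p.2)) (K ×ˢ K) := by
    exact continuous_dist.comp_continuousOn ((hφ.comp continuousOn_fst fun p hp => hp.1).prodMk
      (hφ.comp continuousOn_snd fun p hp => hp.2))
  have hMc : IsCompact M :=
    (hK.prod hK).of_isClosed_subset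
      (hcont.preimage_isClosed_of_isClosed (hK.prod hK).isClosed isClosed_Ici)
      Set.inter_subset_left
  rcases M.eq_empty_or_nonempty with hem | hne
  · refine ⟨1, one_pos, fun x hx y hy _ => ?_⟩
    by_contra h
    have : (x, y) ∈ M := ⟨⟨hx, hy⟩, not_lt.1 h⟩
    rw [hem] at this
    exact this
  · have hg : Continuous (fun p : X × X => dQ (f p.1) (f p.2)) :=
      continuous_dQ.comp ((hf.comp continuous_fst).prodMk (hf.comp continuous_snd))
    obtain ⟨p, hp, hmin⟩ := hMc.exists_isMinOn hne hg.continuousOn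
    refine ⟨dQ (f p.1) (f p.2), dQ_pos fun h => ?_, fun x hx y hy hxy => ?_⟩
    · have h1 := hp.2
      have h2 : p.1 = p.2 := hinj h
      simp only [Set.mem_preimage, Set.mem_Ici] at h1
      rw [h2, dist_self] at h1
      linarith
    · by_contra h
      have : (x, y) ∈ M := ⟨⟨hx, hy⟩, not_lt.1 h⟩
      exact absurd (hmin this) (not_le.2 hxy)

/-- An effective basis of the cube. -/
structure EB (α : Type) [Primcodable α] where
  /-- The basic set with a given code. -/
  S : α → Set Cube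
  /-- Formal inclusion. -/
  Inc : α → α → Prop
  /-- Formal disjointness. -/
  Dis : α → α → Prop
  /-- Smallness. -/
  Sm : ℝ → α → Prop
  inc_dec : PrimrecRel Inc
  dis_dec : PrimrecRel Dis
  isOpen : ∀ a, IsOpen (S a)
  inc : ∀ a b, Inc a b → S a ⊆ S b
  dis : ∀ a b, Dis a b → Disjoint (S a) (S b)
  sm_mono : ∀ ε ε' a, ε ≤ ε' → Sm ε a → Sm ε' a
  exists_sm : ∀ ε > 0, ∀ x, ∃ a, x ∈ S a ∧ Sm ε a
  sm_close : ∀ ε > 0, ∀ a b, Sm ε a → Sm ε b → ¬ Dis a b → ∀ x ∈ S a, ∀ y ∈ S b, dQ x y < ε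
  sm_inc : ∀ b, ∀ x ∈ S b, ∃ ε > 0, ∀ y a, dQ x y < ε → Sm ε a → y ∈ S a → Inc a b

end Q204.TY
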