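import Pool.Agent.Q204.TY.Metric

set_option autoImplicit false

/-!
# Certificates: soundness
-/

namespace Q204.TY

variable {α : Type} [Primcodable α]

/-- Positive part of the transition between the references `a/8` and `a'/8`. -/
def tp (a a' : ℕ) : ℕ := if a + 4 ≤ a' then 1 else 0

theorem c0_eq {a a' : ℕ} (ha : a ≤ 7) (ha' : a' ≤ 7) {n : ℤ}
    (h : |((a' : ℝ) - a) / 8 - n| < 1 / 2) : n = (tp a a' : ℤ) - tp a' a := by
  rw [abs_lt] at h
  have h1 : (a' : ℝ) - a - 8 * n < 4 := by linarith [h.2]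
  have h2 : -4 < (a' : ℝ) - a - 8 * n := by linarith [h.1]
  have h3 : (a' : ℤ) - a - 8 * n < 4 := by exact_mod_cast h1
  have h4 : -4 < (a' : ℤ) - a - 8 * n := by exact_mod_cast h2
  unfold tp
  split_ifs <;> push_cast <;> omega

/-- An entry of a certificate: a basic set, a basic set of the advice with its references, and
the numbers `c`, `m`, `b`. -/
abbrev Entry (α : Type) : Type := α × (α × ℕ × ℕ) × (ℕ × ℕ × ℕ)

namespace Entry
/-- The basic set. -/
abbrev u (e : Entry α) : α := e.1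
/-- The element of the advice. -/
abbrev adv (e : Entry α) : α × ℕ × ℕ := e.2.1
/-- The coefficient. -/
abbrev c (e : Entry α) : ℕ := e.2.2.1
/-- The modulus. -/
abbrev m (e : Entry α) : ℕ := e.2.2.2.1
/-- The label. -/
abbrev b (e : Entry α) : ℕ := e.2.2.2.2
end Entry

/-- The condition on single entries. -/
def Ok1 (E : EB α) (A : List (α × ℕ × ℕ)) (k : ℕ) (e : Entry α) : Prop :=
  e.adv ∈ A ∧ E.Inc e.u e.adv.1 ∧ 0 < e.m ∧ 2 ^ k % e.m ≠ e.c % e.m

/-- The condition on pairs of entries. -/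
def Ok2 (E : EB α) (e e' : Entry α) : Prop :=
  E.Dis e.u e'.u ∨ (e.c = e'.c ∧ e.m = e'.m ∧
    (e'.b + tp e.adv.2.1 e'.adv.2.1 + e.c * tp e'.adv.2.2 e.adv.2.2) % e.m =
    (e.b + tp e'.adv.2.1 e.adv.2.1 + e.c * tp e.adv.2.2 e'.adv.2.2) % e.m)

/-- Valid certificates. -/
def Ok (E : EB α) (A : List (α × ℕ × ℕ)) (x : ℕ × List (Entry α)) : Prop :=
  (∀ e ∈ x.2, Ok1 E A x.1 e) ∧ ∀ e ∈ x.2, ∀ e' ∈ x.2, Ok2 E e e'

/-- The advice is correct for the copy `f`. -/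
def Adv (E : EB α) (f : X → Cube) (A : List (α × ℕ × ℕ)) : Prop :=
  ∀ a ∈ A, a.2.1 ≤ 7 ∧ a.2.2 ≤ 7 ∧ ∀ x : X, f x ∈ E.S a.1 →
    ‖zz x 0 - ((a.2.1 / 8 : ℝ) : T)‖ < 1 / 8 ∧ ‖ss x - ((a.2.2 / 8 : ℝ) : T)‖ < 1 / 8

/-- The integer label of an entry at the parameter `t`. -/
noncomputable def val (k : ℕ) (e : Entry α) (t : ℝ) : ℤ :=
  e.b + round ((e.adv.2.1 : ℝ) / 8 - 2 ^ k * t) - e.c * round ((e.adv.2.2 : ℝ) / 8 - t)

theorem norm_coe (y : ℝ) : ‖(y : T)‖ = |y - round y| := UnitAddCircle.norm_eq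

theorem round_eq_of {y : ℝ} {n : ℤ} (h : |y - n| < 1 / 2) : round y = n := by
  have h1 : round y - n = 0 := by
    rw [← round_sub_intCast]
    exact round_eq_zero_iff.2 ⟨by rw [abs_lt] at h; linarith [h.1], by
      rw [abs_lt] at h; linarith [h.2]⟩
  omega

section
variable {E : EB α} {f : X → Cube} {A : List (α × ℕ × ℕ)} (hA : Adv E f A) {k : ℕ}
include hA

theorem near {e : Entry α} (he : Ok1 E A k e) {t : ℝ} (ht : f (loop k t) ∈ E.S e.u) :
    |(e.adv.2.1 : ℝ) / 8 - 2 ^ k * t - round ((e.adv.2.1 : ℝ) / 8 - 2 ^ k * t)| < 1 / 8 ∧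
    |(e.adv.2.2 : ℝ) / 8 - t - round ((e.adv.2.2 : ℝ) / 8 - t)| < 1 / 8 := by
  obtain ⟨h1, h2, -, -⟩ := he
  obtain ⟨-, -, h3⟩ := hA _ h1
  obtain ⟨h4, h5⟩ := h3 (loop k t) (E.inc _ _ h2 ht)
  constructor
  · rw [← norm_coe, AddCircle.coe_sub]
    rw [norm_sub_rev] at h4
    rw [zz_loop] at h4
    simpa using h4
  · rw [← norm_coe, AddCircle.coe_sub]
    rw [norm_sub_rev] at h5
    rw [ss_loop] at h5
    exact h5

theorem val_congr {e e' : Entry α} (he : Ok1 E A k e) (he' : Ok1 E A k e') (hee : Ok2 E e e')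
    {t : ℝ} (ht : f (loop k t) ∈ E.S e.u) (ht' : f (loop k t) ∈ E.S e'.u) :
    e.c = e'.c ∧ e.m = e'.m ∧ (e.m : ℤ) ∣ val k e' t - val k e t := by
  rcases hee with hd | ⟨hc, hm, hb⟩
  · exfalso
    exact Set.disjoint_left.1 (E.dis _ _ hd) ht ht'
  · refine ⟨hc, hm, ?_⟩
    obtain ⟨n1, n2⟩ := near hA he ht
    obtain ⟨n1', n2'⟩ := near hA he' ht'
    obtain ⟨b1, b2, -⟩ := hA _ he.1
    obtain ⟨b1', b2', -⟩ := hA _ he'.1
    have h1 := c0_eq b1 b1' (n := round ((e'.adv.2.1 : ℝ) / 8 - 2 ^ k * t) -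
      round ((e.adv.2.1 : ℝ) / 8 - 2 ^ k * t)) (by
        push_cast
        rw [abs_lt] at n1 n1' ⊢
        constructor <;> linarith [n1.1, n1.2, n1'.1, n1'.2])
    have h2 := c0_eq b2 b2' (n := round ((e'.adv.2.2 : ℝ) / 8 - t) -
      round ((e.adv.2.2 : ℝ) / 8 - t)) (by
        push_cast
        rw [abs_lt] at n2 n2' ⊢
        constructor <;> linarith [n2.1, n2.2, n2'.1, n2'.2])
    have h3 : (e.m : ℤ) ∣ ((e'.b + tp e.adv.2.1 e'.adv.2.1 + e.c * tp e'.adv.2.2 e.adv.2.2 : ℕ) : ℤ)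
        - ((e.b + tp e'.adv.2.1 e.adv.2.1 + e.c * tp e.adv.2.2 e'.adv.2.2 : ℕ) : ℤ) := by
      have h4 := (Nat.modEq_iff_dvd.1 (show (e.b + tp e'.adv.2.1 e.adv.2.1 +
        e.c * tp e.adv.2.2 e'.adv.2.2) ≡ (e'.b + tp e.adv.2.1 e'.adv.2.1 +
        e.c * tp e'.adv.2.2 e.adv.2.2) [MOD e.m] from hb.symm))
      exact h4
    have h5 : val k e' t - val k e t =
        ((e'.b + tp e.adv.2.1 e'.adv.2.1 + e.c * tp e'.adv.2.2 e.adv.2.2 : ℕ) : ℤ)
        - ((e.b + tp e'.adv.2.1 e.adv.2.1 + e.c * tp e.adv.2.2 e'.adv.2.2 : ℕ) : ℤ) := by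
      unfold val
      rw [← hc]
      push_cast
      have h6 : (e'.b : ℤ) + round ((e'.adv.2.1 : ℝ) / 8 - 2 ^ k * t) -
          e.c * round ((e'.adv.2.2 : ℝ) / 8 - t) -
          (e.b + round ((e.adv.2.1 : ℝ) / 8 - 2 ^ k * t) - e.c * round ((e.adv.2.2 : ℝ) / 8 - t)) =
          e'.b - e.b + (round ((e'.adv.2.1 : ℝ) / 8 - 2 ^ k * t) -
          round ((e.adv.2.1 : ℝ) / 8 - 2 ^ k * t)) - e.c * (round ((e'.adv.2.2 : ℝ) / 8 - t) -
          round ((e.adv.2.2 : ℝ) / 8 - t)) := by ring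
      rw [h6, h1, h2]
      ring
    rw [h5]
    exact h3

theorem val_const {e : Entry α} (he : Ok1 E A k e) {t t' : ℝ} (ht : f (loop k t) ∈ E.S e.u)
    (ht' : f (loop k t') ∈ E.S e.u) (h : |t' - t| < 1 / 4) (h' : 2 ^ k * |t' - t| < 1 / 4) :
    val k e t' = val k e t := by
  obtain ⟨n1, n2⟩ := near hA he ht
  obtain ⟨n1', n2'⟩ := near hA he ht'
  have h1 : (round ((e.adv.2.1 : ℝ) / 8 - 2 ^ k * t') : ℤ) =
      round ((e.adv.2.1 : ℝ) / 8 - 2 ^ k * t) := by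
    apply round_eq_of
    have h3 : |2 ^ k * (t' - t)| < 1 / 4 := by
      rw [abs_mul, abs_of_pos (by positivity : (0 : ℝ) < 2 ^ k)]
      exact h'
    rw [abs_lt] at n1 h3 ⊢
    constructor <;> linarith [n1.1, n1.2, h3.1, h3.2]
  have h2 : (round ((e.adv.2.2 : ℝ) / 8 - t') : ℤ) = round ((e.adv.2.2 : ℝ) / 8 - t) := by
    apply round_eq_of
    rw [abs_lt] at n2 h ⊢
    constructor <;> linarith [n2.1, n2.2, h.1, h.2]
  unfold val
  rw [h1, h2]

omit hA [Primcodable α] in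
theorem val_add_one (e : Entry α) (t : ℝ) : val k e (t + 1) = val k e t - 2 ^ k + e.c := by
  unfold val
  have h1 : round ((e.adv.2.1 : ℝ) / 8 - 2 ^ k * (t + 1)) =
      round ((e.adv.2.1 : ℝ) / 8 - 2 ^ k * t) - 2 ^ k := by
    rw [← round_sub_intCast]
    congr 1
    push_cast
    ring
  have h2 : round ((e.adv.2.2 : ℝ) / 8 - (t + 1)) = round ((e.adv.2.2 : ℝ) / 8 - t) - 1 := by
    rw [← round_sub_one]
    congr 1
    ring
  rw [h1, h2]
  ring

/-- Soundness of certificates. -/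
theorem sound (hf : Continuous f) {L : List (Entry α)} (hok : Ok E A (k, L)) {B : α}
    (hcov : ∀ x : X, f x ∈ E.S B ∨ ∃ e ∈ L, f x ∈ E.S e.u) : ∃ x : X, f x ∈ E.S B := by
  by_contra hcon
  push Not at hcon
  have hcov' : ∀ t : ℝ, ∃ e ∈ L, f (loop k t) ∈ E.S e.u := fun t =>
    (hcov (loop k t)).resolve_left (hcon _)
  choose e heL he using hcov'
  have hfl : Continuous (fun t => f (loop k t)) := hf.comp (continuous_loop k)
  -- neighbourhoods
  have hnhd : ∀ t : ℝ, ∀ᶠ t' in nhds t, f (loop k t') ∈ E.S (e t).u ∧ |t' - t| < 1 / 4 ∧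
      2 ^ k * |t' - t| < 1 / 4 := by
    intro t
    have h1 : ∀ᶠ t' in nhds t, f (loop k t') ∈ E.S (e t).u :=
      hfl.continuousAt.eventually ((E.isOpen _).mem_nhds (he t))
    have h2 : ∀ᶠ t' in nhds t, |t' - t| < 1 / 4 := by
      have : Filter.Tendsto (fun t' => |t' - t|) (nhds t) (nhds |t - t|) :=
        ((continuous_id.sub continuous_const).abs).tendsto t
      rw [sub_self, abs_zero] at this
      exact this.eventually (gt_mem_nhds (by norm_num))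
    have h3 : ∀ᶠ t' in nhds t, 2 ^ k * |t' - t| < 1 / 4 := by
      have : Filter.Tendsto (fun t' => 2 ^ k * |t' - t|) (nhds t) (nhds (2 ^ k * |t - t|)) :=
        (continuous_const.mul (continuous_id.sub continuous_const).abs).tendsto t
      rw [sub_self, abs_zero, mul_zero] at this
      exact this.eventually (gt_mem_nhds (by norm_num))
    exact h1.and (h2.and h3)
  -- the modulus and the coefficient are constant
  have hcm : IsLocallyConstant (fun t => ((e t).c, (e t).m)) := by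
    rw [IsLocallyConstant.iff_eventually_eq]
    intro t
    filter_upwards [hnhd t] with t' ht'
    obtain ⟨h1, h2, -⟩ := val_congr hA (hok.1 _ (heL t)) (hok.1 _ (heL t'))
      (hok.2 _ (heL t) _ (heL t')) ht'.1 (he t')
    show ((e t').c, (e t').m) = ((e t).c, (e t).m)
    rw [h1, h2]
  have hcm' : ∀ t, (e t).c = (e 0).c ∧ (e t).m = (e 0).m := by
    intro t
    have := hcm.apply_eq_of_preconnectedSpace t 0
    simp only [Prod.mk.injEq] at this
    exact this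
  -- the label is constant
  have hD : IsLocallyConstant (fun t => ((val k (e t) t : ℤ) : ZMod (e 0).m)) := by
    rw [IsLocallyConstant.iff_eventually_eq]
    intro t
    filter_upwards [hnhd t] with t' ht'
    obtain ⟨-, -, h3⟩ := val_congr hA (hok.1 _ (heL t)) (hok.1 _ (heL t'))
      (hok.2 _ (heL t) _ (heL t')) ht'.1 (he t')
    rw [val_const hA (hok.1 _ (heL t)) (he t) ht'.1 ht'.2.1 ht'.2.2, (hcm' t).2] at h3
    rw [ZMod.intCast_eq_intCast_iff_dvd_sub]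
    rw [← neg_sub, dvd_neg]
    exact h3
  have h01 : ((val k (e 1) 1 : ℤ) : ZMod (e 0).m) = ((val k (e 0) 0 : ℤ) : ZMod (e 0).m) :=
    hD.apply_eq_of_preconnectedSpace 1 0
  rw [ZMod.intCast_eq_intCast_iff_dvd_sub] at h01
  have hl1 : loop k 1 = loop k 0 := by
    have := loop_add_one k 0
    rwa [zero_add] at this
  have he01 : f (loop k 1) ∈ E.S (e 0).u := by
    rw [hl1]
    exact he 0
  obtain ⟨-, -, h3⟩ := val_congr hA (hok.1 _ (heL 0)) (hok.1 _ (heL 1))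
    (hok.2 _ (heL 0) _ (heL 1)) he01 (he 1)
  have h4 := val_add_one (k := k) (e 0) 0
  rw [zero_add] at h4
  rw [h4] at h3
  have h5 : ((e 0).m : ℤ) ∣ 2 ^ k - (e 0).c := by
    have h6 := dvd_add h01 h3
    have h7 : val k (e 0) 0 - val k (e 1) 1 + (val k (e 1) 1 - (val k (e 0) 0 - 2 ^ k + (e 0).c)) =
        2 ^ k - (e 0).c := by ring
    rwa [h7] at h6
  obtain ⟨-, -, -, hne⟩ := hok.1 _ (heL 0)
  apply hne
  have h8 : (e 0).c ≡ 2 ^ k [MOD (e 0).m] := by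
    rw [Nat.modEq_iff_dvd]
    push_cast
    exact h5
  exact h8.symm

end

end Q204.TY
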