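import Mathlib

set_option autoImplicit false

/-!
# Circles converging to the product of the dyadic solenoid and a circle
-/

namespace Q204.TY

/-- The circle `ℝ / ℤ`. -/
abbrev T : Type := UnitAddCircle

/-- The relations defining the space: `e` is a decreasing sequence of bits, `z n = 2 z (n+1)` while
`e n = 1`, and `z n = s` as soon as `e n = 0`. -/
def XSet : Set ((ℕ → Bool) × (ℕ → T) × T) :=
  {x | ∀ n, (x.1 (n + 1) = true → x.1 n = true) ∧
    (x.1 n = true → x.2.1 n = x.2.1 (n + 1) + x.2.1 (n + 1)) ∧ (x.1 n = false → x.2.1 n = x.2.2)}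

/-- The space. -/
abbrev X : Type := XSet

theorem isClosed_XSet : IsClosed XSet := by
  have h1 : ∀ n, Continuous (fun x : (ℕ → Bool) × (ℕ → T) × T => x.1 n) := fun n =>
    (continuous_apply n).comp continuous_fst
  have h2 : ∀ n, Continuous (fun x : (ℕ → Bool) × (ℕ → T) × T => x.2.1 n) := fun n =>
    (continuous_apply n).comp (continuous_fst.comp continuous_snd)
  have h3 : Continuous (fun x : (ℕ → Bool) × (ℕ → T) × T => x.2.2) :=
    continuous_snd.comp continuous_snd
  have hcl : ∀ n b, IsOpen {x : (ℕ → Bool) × (ℕ → T) × T | x.1 n = b} := fun n b =>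
    (isOpen_discrete {b}).preimage (h1 n)
  have hcl' : ∀ n b, IsClosed {x : (ℕ → Bool) × (ℕ → T) × T | x.1 n = b} := fun n b =>
    (isClosed_discrete {b}).preimage (h1 n)
  have himp : ∀ (n : ℕ) (b : Bool) (P : (ℕ → Bool) × (ℕ → T) × T → Prop), IsClosed {x | P x} →
      IsClosed {x | x.1 n = b → P x} := by
    intro n b P hP
    have : {x : (ℕ → Bool) × (ℕ → T) × T | x.1 n = b → P x} = {x | x.1 n = b}ᶜ ∪ {x | P x} := by
      ext x
      show (x.1 n = b → P x) ↔ (¬ x.1 n = b ∨ P x)
      tauto
    rw [this]
    exact (hcl n b).isClosed_compl.union hP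
  have : XSet = ⋂ n, ({x : (ℕ → Bool) × (ℕ → T) × T | x.1 (n + 1) = true → x.1 n = true} ∩
      ({x | x.1 n = true → x.2.1 n = x.2.1 (n + 1) + x.2.1 (n + 1)} ∩
        {x | x.1 n = false → x.2.1 n = x.2.2})) := by
    ext x
    simp [XSet]
  rw [this]
  refine isClosed_iInter fun n => (himp _ _ _ (hcl' _ _)).inter ((himp _ _ _ ?_).inter
    (himp _ _ _ ?_))
  · exact isClosed_eq (h2 n) ((h2 (n + 1)).add (h2 (n + 1)))
  · exact isClosed_eq (h2 n) h3

instance : CompactSpace X := isCompact_iff_compactSpace.1 isClosed_XSet.isCompact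

/-- The bits. -/
def bit (x : X) (n : ℕ) : Bool := x.1.1 n

/-- The coordinates in the inverse system. -/
def zz (x : X) (n : ℕ) : T := x.1.2.1 n

/-- The last coordinate. -/
def ss (x : X) : T := x.1.2.2

theorem continuous_bit (n : ℕ) : Continuous (fun x : X => bit x n) :=
  (continuous_apply n).comp (continuous_fst.comp continuous_subtype_val)

theorem continuous_zz (n : ℕ) : Continuous (fun x : X => zz x n) :=
  (continuous_apply n).comp (continuous_fst.comp (continuous_snd.comp continuous_subtype_val))

theorem continuous_ss : Continuous ss :=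
  continuous_snd.comp (continuous_snd.comp continuous_subtype_val)

theorem X.ext' {x y : X} (h1 : ∀ n, bit x n = bit y n) (h2 : ∀ n, zz x n = zz y n)
    (h3 : ss x = ss y) : x = y :=
  Subtype.ext (Prod.ext (funext h1) (Prod.ext (funext h2) h3))

theorem bit_mono (x : X) {m n : ℕ} (hmn : m ≤ n) (h : bit x n = true) : bit x m = true := by
  induction hmn with
  | refl => exact h
  | step _ ih => exact ih ((x.2 _).1 h)

theorem zz_double (x : X) {n : ℕ} (h : bit x n = true) : zz x n = 2 • zz x (n + 1) := by
  rw [two_nsmul]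
  exact (x.2 n).2.1 h

theorem zz_ss (x : X) {n : ℕ} (h : bit x n = false) : zz x n = ss x := (x.2 n).2.2 h

theorem zz_pow (x : X) (n k : ℕ) (h : ∀ i < k, bit x (n + i) = true) :
    zz x n = 2 ^ k • zz x (n + k) := by
  induction k with
  | zero => simp
  | succ k ih =>
    rw [ih (fun i hi => h i (by omega)), zz_double x (h k (by omega)), ← mul_nsmul, pow_succ,
      mul_comm]
    rfl

/-- The `k`-th circle. -/
noncomputable def loop (k : ℕ) (t : ℝ) : X :=
  ⟨(fun n => decide (n < k), fun n => ((2 ^ (k - n) * t : ℝ) : T), (t : T)), by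
    intro n
    refine ⟨fun h => ?_, fun h => ?_, fun h => ?_⟩
    · simp only [decide_eq_true_eq] at h ⊢
      omega
    · simp only [decide_eq_true_eq] at h
      simp only
      rw [← AddCircle.coe_add]
      congr 1
      have : k - n = (k - (n + 1)) + 1 := by omega
      rw [this, pow_succ]
      ring
    · simp only [decide_eq_false_iff_not] at h
      simp only
      have : k - n = 0 := by omega
      rw [this]
      simp⟩

theorem bit_loop (k : ℕ) (t : ℝ) (n : ℕ) : bit (loop k t) n = decide (n < k) := rfl

theorem zz_loop (k : ℕ) (t : ℝ) (n : ℕ) : zz (loop k t) n = ((2 ^ (k - n) * t : ℝ) : T) := rfl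

theorem ss_loop (k : ℕ) (t : ℝ) : ss (loop k t) = (t : T) := rfl

theorem continuous_loop (k : ℕ) : Continuous (loop k) := by
  apply Continuous.subtype_mk
  refine continuous_const.prodMk (Continuous.prodMk ?_ (AddCircle.continuous_mk' 1))
  exact continuous_pi fun n => (AddCircle.continuous_mk' 1).comp (continuous_const.mul continuous_id)

theorem T_eq {a b : ℝ} : (a : T) = (b : T) ↔ ∃ n : ℤ, a = b + n := by
  rw [← sub_eq_zero, ← AddCircle.coe_sub, AddCircle.coe_eq_zero_iff]
  constructor
  · rintro ⟨n, hn⟩
    refine ⟨n, ?_⟩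
    rw [zsmul_eq_mul, mul_one] at hn
    linarith
  · rintro ⟨n, hn⟩
    refine ⟨n, ?_⟩
    rw [zsmul_eq_mul, mul_one]
    linarith

theorem exists_lift (g : T) : ∃ r : ℝ, (r : T) = g := by
  obtain ⟨r, hr⟩ := QuotientAddGroup.mk_surjective g
  exact ⟨r, hr⟩

theorem loop_add_one (k : ℕ) (t : ℝ) : loop k (t + 1) = loop k t := by
  apply X.ext'
  · intro n
    rfl
  · intro n
    rw [zz_loop, zz_loop, T_eq]
    refine ⟨2 ^ (k - n), ?_⟩
    push_cast
    ring
  · rw [ss_loop, ss_loop, T_eq]
    exact ⟨1, by simp⟩

/-- The first bit equal to `0` determines the circle. -/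
theorem eq_loop (x : X) {k : ℕ} (h1 : bit x k = false) (h2 : ∀ n < k, bit x n = true) {t : ℝ}
    (ht : (t : T) = ss x) : x = loop k t := by
  have hz : zz x k = (t : T) := by rw [zz_ss x h1, ht]
  apply X.ext'
  · intro n
    rw [bit_loop]
    by_cases hn : n < k
    · rw [h2 n hn]
      simp [hn]
    · rcases hb : bit x n with _ | _
      · simp [hn]
      · exfalso
        have := bit_mono x (not_lt.1 hn) hb
        rw [h1] at this
        exact absurd this (by simp)
  · intro n
    rw [zz_loop]
    by_cases hn : n < k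
    · rw [zz_pow x n (k - n) (fun i hi => h2 _ (by omega)), Nat.add_sub_cancel' hn.le, hz]
      rw [← AddCircle.coe_nsmul]
      congr 1
      simp
    · have hb : bit x n = false := by
        rcases hb : bit x n with _ | _
        · rfl
        · exfalso
          have := bit_mono x (not_lt.1 hn) hb
          rw [h1] at this
          exact absurd this (by simp)
      rw [zz_ss x hb, ← ht]
      have : k - n = 0 := by omega
      rw [this]
      simp
  · rw [ss_loop, ht]

/-- The circles are dense. -/
theorem loop_dense {U : Set X} (hU : IsOpen U) (hne : U.Nonempty) : ∃ k t, loop k t ∈ U := by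
  obtain ⟨x, hx⟩ := hne
  by_cases hall : ∀ n, bit x n = true
  · obtain ⟨s, hs⟩ := exists_lift (ss x)
    choose z hz using fun n => exists_lift (zz x n)
    -- parameters
    set t : ℕ → ℝ := fun N => (z N + round ((2 : ℝ) ^ N * s - z N)) / 2 ^ N with ht
    have hlim : Filter.Tendsto (fun N => loop (2 * N) (t N)) Filter.atTop (nhds x) := by
      rw [tendsto_subtype_rng]
      refine Filter.Tendsto.prodMk_nhds ?_ (Filter.Tendsto.prodMk_nhds ?_ ?_)
      · rw [tendsto_pi_nhds]
        intro n
        apply tendsto_const_nhds.congr'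
        filter_upwards [Filter.eventually_ge_atTop (n + 1)] with N hN
        show bit x n = decide (n < 2 * N)
        rw [hall n]
        simp
        omega
      · rw [tendsto_pi_nhds]
        intro n
        apply tendsto_const_nhds.congr'
        filter_upwards [Filter.eventually_ge_atTop n] with N hN
        show zz x n = ((2 ^ (2 * N - n) * t N : ℝ) : T)
        rw [zz_pow x n (N - n) (fun i _ => hall _), Nat.add_sub_cancel' hN, ← hz N,
          ← AddCircle.coe_nsmul, T_eq]
        refine ⟨-(2 ^ (N - n) * round ((2 : ℝ) ^ N * s - z N)), ?_⟩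
        rw [ht]
        simp only
        have e1 : 2 * N - n = (N - n) + N := by omega
        rw [e1, pow_add, nsmul_eq_mul]
        push_cast
        field_simp
        ring
      · have h1 : Filter.Tendsto t Filter.atTop (nhds s) := by
          rw [tendsto_iff_dist_tendsto_zero]
          refine squeeze_zero (fun N => dist_nonneg) (g := fun N => (1 / 2 : ℝ) ^ N) ?_
            (tendsto_pow_atTop_nhds_zero_of_lt_one (by norm_num) (by norm_num))
          intro N
          rw [Real.dist_eq, ht]
          simp only
          have h2 := abs_sub_round ((2 : ℝ) ^ N * s - z N)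
          have h3 : (z N + round ((2 : ℝ) ^ N * s - z N)) / 2 ^ N - s =
              -(((2 : ℝ) ^ N * s - z N - round ((2 : ℝ) ^ N * s - z N)) / 2 ^ N) := by
            field_simp
            ring
          rw [h3, abs_neg, abs_div, abs_of_pos (by positivity : (0 : ℝ) < 2 ^ N)]
          rw [one_div, inv_pow, div_le_iff₀ (by positivity), inv_mul_cancel₀ (by positivity)]
          linarith
        have h2 := ((AddCircle.continuous_mk' (1 : ℝ)).tendsto s).comp h1
        have h3 : ss x = QuotientAddGroup.mk s := hs.symm
        show Filter.Tendsto _ _ (nhds (ss x))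
        rw [h3]
        exact h2
    obtain ⟨N, hN⟩ := (hlim.eventually (hU.mem_nhds hx)).exists
    exact ⟨_, _, hN⟩
  · push Not at hall
    obtain ⟨k, hk1, hk2⟩ : ∃ k, bit x k = false ∧ ∀ n < k, bit x n = true := by
      classical
      have hex : ∃ k, bit x k = false := by
        obtain ⟨k, hk⟩ := hall
        exact ⟨k, by simpa using hk⟩
      refine ⟨Nat.find hex, Nat.find_spec hex, fun n hn => ?_⟩
      have := Nat.find_min hex hn
      simpa using this
    obtain ⟨t, ht⟩ := exists_lift (ss x)
    refine ⟨k, t, ?_⟩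
    rw [← eq_loop x hk1 hk2 ht]
    exact hx

end Q204.TY
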