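import Pool.Agent.Q204.TY.Box

set_option autoImplicit false

/-!
# Topology of the space
-/

namespace Q204.TY

open TopologicalSpace

instance metrizable_X : MetrizableSpace X := by
  have : SecondCountableTopology X := inferInstance
  have : T3Space X := inferInstance
  exact inferInstance

theorem infinite_components : Infinite (ConnectedComponents X) := by
  refine Infinite.of_injective (fun k : ℕ => ConnectedComponents.mk (loop k 0)) ?_
  intro k l hkl
  have h : ∀ n, bit (loop k 0) n = bit (loop l 0) n := by
    intro n
    have hc : Continuous (fun x : X => bit x n) := continuous_bit n
    have h1 : hc.connectedComponentsLift (ConnectedComponents.mk (loop k 0)) =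
        hc.connectedComponentsLift (ConnectedComponents.mk (loop l 0)) := by
      rw [show ConnectedComponents.mk (loop k 0) = ConnectedComponents.mk (loop l 0) from hkl]
    simpa using h1
  by_contra hne
  rcases Nat.lt_or_gt_of_ne hne with h1 | h1
  · have := h k
    rw [bit_loop, bit_loop] at this
    simp [h1] at this
  · have := h l
    rw [bit_loop, bit_loop] at this
    simp [h1] at this

end Q204.TY
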